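import Pool.Agent.Work.MP_72041b_co.TT.Stmts

/-!
# MP_72041b_co, block TT, item ArrB: stacking of the slots
-/

set_option autoImplicit false

namespace Pool.Agent.Potatoes.TT

/-- (ArrB) -/
theorem pr_ArrB : S_ArrB := by
  intro h1 t κ l₀ ht hκ hκ1 hW hl₀ hlκ ι _ l H hl hs hT
  obtain ⟨q, hq0, hq1, hq2⟩ := Arrange2.longStack h1 l H l₀ 1 (2 * t) hl₀ one_pos
    (fun i => (hl i).1) (fun i => (hl i).2.2) hs hT
  simp only [one_mul] at hq1 hq2
  set W : ℝ := (1 - κ) / (1 + κ ^ 2) with hWd
  set r : ℝ := W / (2 * t) with hr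
  have h2t : 0 < 2 * t := by linarith
  have hr1 : 1 < r := (one_lt_div h2t).2 hW
  have hκ2 : 0 < 1 + κ ^ 2 := by positivity
  have hWe : (1 + κ ^ 2) * W = 1 - κ := by
    rw [hWd]
    field_simp
  have hrt : r * (2 * t) = W := by
    rw [hr]
    field_simp
  refine ⟨fun i => W - r * (q i + H i), fun i => ⟨?_, ?_⟩, fun i j hij => ?_⟩
  · obtain ⟨hl1, hl2, hH⟩ := hl i
    have hli : 0 < l i := hl₀.trans_le hl1
    have h2 : r * (q i + H i) ≤ W / l i := by
      calc r * (q i + H i) ≤ r * (2 * t / l i) :=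
            mul_le_mul_of_nonneg_left (hq1 i) (by linarith)
        _ = W / l i := by
            rw [← mul_div_assoc, hrt]
    have h3 : (1 + κ ^ 2) * (r * (q i + H i)) ≤ (1 - κ) / l i := by
      calc (1 + κ ^ 2) * (r * (q i + H i)) ≤ (1 + κ ^ 2) * (W / l i) :=
            mul_le_mul_of_nonneg_left h2 hκ2.le
        _ = (1 - κ) / l i := by
            rw [← mul_div_assoc, hWe]
    have h4 : (1 - κ) / l i ≤ κ * (1 - l i) + (1 - κ) := by
      rw [div_le_iff₀ hli]
      have h5 : l₀ * κ ≤ l i * κ := mul_le_mul_of_nonneg_right hl1 hκ.le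
      have h6 : 0 ≤ (1 - l i) * (l i * κ - (1 - κ)) :=
        mul_nonneg (by linarith) (by linarith)
      nlinarith
    have h7 : (1 + κ ^ 2) * (W - r * (q i + H i)) =
        (1 - κ) - (1 + κ ^ 2) * (r * (q i + H i)) := by
      rw [mul_sub, hWe]
    change 0 ≤ κ * (1 - l i) + (1 + κ ^ 2) * (W - r * (q i + H i))
    rw [h7]
    linarith
  · have hH := (hl i).2.2
    have h2 : H i ≤ r * (q i + H i) := by
      have h3 : 0 ≤ (r - 1) * (q i + H i) := mul_nonneg (by linarith) (by linarith [hq0 i])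
      nlinarith [hq0 i]
    change (1 + κ ^ 2) * (W - r * (q i + H i) + H i) ≤ 1 - κ
    rw [← hWe]
    exact mul_le_mul_of_nonneg_left (by linarith) hκ2.le
  · have hr0 : 0 < r := by linarith
    rcases hq2 i j hij with h | h
    · right
      have h2 : r * (q i + H i) ≤ r * q j := mul_le_mul_of_nonneg_left h hr0.le
      have h3 : 0 < (r - 1) * H j := mul_pos (by linarith) (hl j).2.2
      change W - r * (q j + H j) + H j < W - r * (q i + H i)
      nlinarith
    · left
      have h2 : r * (q j + H j) ≤ r * q i := mul_le_mul_of_nonneg_left h hr0.le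
      have h3 : 0 < (r - 1) * H i := mul_pos (by linarith) (hl i).2.2
      change W - r * (q i + H i) + H i < W - r * (q j + H j)
      nlinarith

end Pool.Agent.Potatoes.TT
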