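import Pool.Agent.Work.MP_72041b_co.TT.Stmts

/-!
# MP_72041b_co, block TT, item ArrS: small boxes in a small square
-/

set_option autoImplicit false

namespace Pool.Agent.Potatoes.TT

/-- (ArrS) -/
theorem pr_ArrS : S_ArrS := by
  intro h2
  obtain ⟨C, hC, hbins⟩ := h2 2
  obtain ⟨M, hM⟩ := exists_nat_ge (2 * C)
  set η : ℝ := 1 / (100 * ((M : ℝ) + 2)) with hηd
  have hM0 : (0 : ℝ) ≤ M := Nat.cast_nonneg M
  have hη : 0 < η := by positivity
  have hηM : 2 * η * ((M : ℝ) + 2) = 1 / 50 := by
    rw [hηd]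
    field_simp
    norm_num
  have hη1 : η ≤ 1 / 200 := by nlinarith
  refine ⟨η, η ^ 2 / 64, hη, by linarith, by positivity, ?_⟩
  intro t ht htβ ι _ w hw hs hT
  have hprod : (fun i : ι => ∏ l, w i l / η) = fun i => (1 / η ^ 2) * (w i 0 * w i 1) := by
    funext i
    rw [Fin.prod_univ_two]
    field_simp
  obtain ⟨N, bin, pos, hN, hbin, hpos, hsep⟩ := hbins ι (fun i l => w i l / η) 1
    (fun i l => ⟨div_pos (hw i l).1 hη, (div_le_one hη).2 (hw i l).2⟩)
    (by
      rw [hprod]
      exact hs.mul_left _)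
    (by
      rw [hprod, tsum_mul_left]
      have h6 : (1 / η ^ 2) * (∑' i, w i 0 * w i 1) ≤ (1 / η ^ 2) * (2 * t) :=
        mul_le_mul_of_nonneg_left hT (by positivity)
      refine h6.trans ?_
      rw [one_div, inv_mul_le_iff₀ (by positivity)]
      nlinarith)
  have hNM : (N : ℝ) ≤ M := by linarith
  have hw' : ∀ i l, η * (w i l / η) = w i l := fun i l => by field_simp
  have hwp : ∀ i l, 0 < w i l / η := fun i l => div_pos (hw i l).1 hη
  have hb : ∀ i, (bin i : ℝ) + 1 ≤ M := fun i => by
    have h3 : bin i + 1 ≤ N := hbin i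
    have h4 : ((bin i + 1 : ℕ) : ℝ) ≤ N := by exact_mod_cast h3
    push_cast at h4
    linarith
  have key : ∀ i i' : ι, i ≠ i' → bin i ≤ bin i' → ∃ l,
      (![2 * η * ((bin i : ℝ) + pos i 0), 2 * η * pos i 1] : Fin 2 → ℝ) l + w i l <
        (![2 * η * ((bin i' : ℝ) + pos i' 0), 2 * η * pos i' 1] : Fin 2 → ℝ) l ∨
      (![2 * η * ((bin i' : ℝ) + pos i' 0), 2 * η * pos i' 1] : Fin 2 → ℝ) l + w i' l <
        (![2 * η * ((bin i : ℝ) + pos i 0), 2 * η * pos i 1] : Fin 2 → ℝ) l := by
    intro i i' hne hbb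
    rcases hbb.eq_or_lt with hbb | hbb
    · obtain ⟨l, hl⟩ := hsep i i' hne hbb
      refine ⟨l, ?_⟩
      rw [hbb]
      fin_cases l
      · simp only [Fin.zero_eta, Matrix.cons_val_zero] at hl ⊢
        rcases hl with hl | hl
        · left
          have := Arrange2.sep η ((bin i' : ℝ) + pos i 0) ((bin i' : ℝ) + pos i' 0)
            (w i 0 / η) hη (hwp i 0) (by linarith)
          rw [hw'] at this
          exact this
        · right
          have := Arrange2.sep η ((bin i' : ℝ) + pos i' 0) ((bin i' : ℝ) + pos i 0)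
            (w i' 0 / η) hη (hwp i' 0) (by linarith)
          rw [hw'] at this
          exact this
      · simp only [Fin.mk_one, Matrix.cons_val_one, Matrix.cons_val_fin_one] at hl ⊢
        rcases hl with hl | hl
        · left
          have := Arrange2.sep η (pos i 1) (pos i' 1) (w i 1 / η) hη (hwp i 1) hl
          rw [hw'] at this
          exact this
        · right
          have := Arrange2.sep η (pos i' 1) (pos i 1) (w i' 1 / η) hη (hwp i' 1) hl
          rw [hw'] at this
          exact this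
    · refine ⟨0, Or.inl ?_⟩
      simp only [Matrix.cons_val_zero]
      have h4 := (hpos i 0).2
      have h5 := (hpos i' 0).1
      have h6 : (bin i : ℝ) + 1 ≤ bin i' := by exact_mod_cast hbb
      have := Arrange2.sep η ((bin i : ℝ) + pos i 0) ((bin i' : ℝ) + pos i' 0)
        (w i 0 / η) hη (hwp i 0) (by linarith)
      rw [hw'] at this
      exact this
  refine ⟨fun i => ![2 * η * ((bin i : ℝ) + pos i 0), 2 * η * pos i 1], fun i l => ?_,
    fun i j hij => ?_⟩
  · have hb0 : (0 : ℝ) ≤ bin i := Nat.cast_nonneg _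
    have h10 : 2 * η * M + 2 * η * 2 = 1 / 50 := by rw [← hηM]; ring
    fin_cases l
    · simp only [Fin.zero_eta, Matrix.cons_val_zero]
      have h4 := (hpos i 0).1
      refine ⟨by positivity, ?_⟩
      have := Arrange2.bound η ((bin i : ℝ) + pos i 0) M (w i 0 / η) hη (hwp i 0)
        (by linarith [(hpos i 0).2, hb i])
      rw [hw'] at this
      linarith
    · simp only [Fin.mk_one, Matrix.cons_val_one, Matrix.cons_val_fin_one]
      have h4 := (hpos i 1).1
      refine ⟨by positivity, ?_⟩
      have := Arrange2.bound η (pos i 1) 1 (w i 1 / η) hη (hwp i 1) (hpos i 1).2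
      rw [hw'] at this
      linarith
  · rcases le_total (bin i) (bin j) with hbb | hbb
    · exact key i j hij hbb
    · obtain ⟨l, hl⟩ := key j i hij.symm hbb
      exact ⟨l, hl.symm⟩

end Pool.Agent.Potatoes.TT
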