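import Pool.Agent.Work.MP_72041b_co.TT.I_Pair

/-!
# MP_72041b_co, block TT, item Core: disjoint thin rhombi in the square
-/

set_option autoImplicit false

namespace Pool.Agent.Potatoes.TT

namespace AuxCore

/-- Two families: the second one contains the rhombi of the first one. -/
def Disj (w : ℝ) {N : ℕ} (z0 z1 V0 V1 : Fin N → ℝ) : Prop :=
  ∀ i j, i ≠ j → ∀ α β α' β' : ℝ, |α| + |β| / w ≤ 1 / 2 → |α'| + |β'| / w ≤ 1 / 2 →
    z0 i + α * V0 i - β * V1 i = z0 j + α' * V0 j - β' * V1 j →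
    z1 i + α * V1 i + β * V0 i = z1 j + α' * V1 j + β' * V0 j → False

/-- The case `|V₁| ≤ V₀`. -/
lemma core0 {C ε₀ : ℝ}
    (hpair : ∀ ε w z₀ z₁ V₀ V₁ z₀' z₁' V₀' V₁' : ℝ,
      0 < ε → ε ≤ ε₀ → 0 < w → w ≤ ε₀ →
      RhIn (1 + ε) w z₀ z₁ V₀ V₁ → RhIn (1 + ε) w z₀' z₁' V₀' V₁' → |V₁| ≤ V₀ → |V₁'| ≤ V₀' →
      (∀ α β α' β' : ℝ, |α| + |β| / w ≤ 1 / 2 → |α'| + |β'| / w ≤ 1 / 2 →
        z₀ + α * V₀ - β * V₁ = z₀' + α' * V₀' - β' * V₁' →
        z₁ + α * V₁ + β * V₀ = z₁' + α' * V₁' + β' * V₀' → False) →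
      z₁ - V₁ / V₀ * z₀ < z₁' - V₁' / V₀' * z₀' →
      w * (1 - C * ε ^ 2 - C * w) ≤ Psi (1 + ε) (z₁' - V₁' / V₀' * z₀') (V₁' / V₀') -
        Psi (1 + ε) (z₁ - V₁ / V₀ * z₀) (V₁ / V₀))
    (htop : S_PsiTop) {ε w : ℝ} (hε : 0 < ε) (hε1 : ε ≤ ε₀) (hε2 : ε ≤ 1 / 100) (hw : 0 < w)
    (hw1 : w ≤ ε₀) (hw2 : w ≤ 1) {N : ℕ} (hN : 0 < N) (z0 z1 V0 V1 : Fin N → ℝ)
    (hR : ∀ i, RhIn (1 + ε) w (z0 i) (z1 i) (V0 i) (V1 i)) (hV : ∀ i, |V1 i| ≤ V0 i)
    (hd : Disj w z0 z1 V0 V1) :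
    ((N : ℝ) - 1) * (w * (1 - C * ε ^ 2 - C * w)) ≤ Wd (1 + ε) := by
  set p : Fin N → ℝ := fun i => z1 i - V1 i / V0 i * z0 i with hp
  have hdata := fun i => AuxPair.data hε hε2 (hR i) (hV i)
  have hV0 : ∀ i, 0 < V0 i := fun i => by
    have h1 := (hdata i).1
    nlinarith
  have hpinj : Function.Injective p := by
    intro i j hij
    by_contra hne
    have hx : ∀ i, |0 - z0 i| ≤ V0 i / 2 := fun i => by
      obtain ⟨v1, -, -, k1, -⟩ := hdata i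
      rw [zero_sub, abs_neg]
      nlinarith
    have ht : ∀ i, |(0 : ℝ)| ≤ AuxPair.hh w (z0 i) (V0 i) 0 := fun i => by
      rw [abs_zero]
      exact AuxPair.hh_nonneg hw hw2 (hV0 i) (hx i)
    obtain ⟨α, β, a1, a2, a3⟩ := AuxPair.section_mem (z₁ := z1 i) hw (hR i).1 (hV0 i) (hx i) (ht i)
    obtain ⟨α', β', b1, b2, b3⟩ :=
      AuxPair.section_mem (z₁ := z1 j) hw (hR j).1 (hV0 j) (hx j) (ht j)
    refine hd i j hne α β α' β' a1 b1 (by rw [a2, b2]) ?_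
    rw [a3, b3]
    have : p i = p j := hij
    simp only [hp] at this
    rw [this]
    ring
  set σ := Tuple.sort p with hσ
  have hmono : StrictMono (p ∘ σ) :=
    (Tuple.monotone_sort p).strictMono_of_injective (hpinj.comp σ.injective)
  set δ : ℝ := w * (1 - C * ε ^ 2 - C * w) with hδ
  set Ψ : Fin N → ℝ := fun i => Psi (1 + ε) (p (σ i)) (V1 (σ i) / V0 (σ i)) with hΨ
  have hstep : ∀ k (hk : k < N), Ψ ⟨0, hN⟩ + k * δ ≤ Ψ ⟨k, hk⟩ := by
    intro k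
    induction k with
    | zero =>
      intro hk
      simp
    | succ k ih =>
      intro hk
      have hk' : k < N := by omega
      have h1 := ih hk'
      have hlt : (⟨k, hk'⟩ : Fin N) < ⟨k + 1, hk⟩ := by
        rw [Fin.lt_def]
        exact Nat.lt_succ_self k
      have hne : σ ⟨k, hk'⟩ ≠ σ ⟨k + 1, hk⟩ := fun h => (ne_of_lt hlt) (σ.injective h)
      have h2 := hpair ε w _ _ _ _ _ _ _ _ hε hε1 hw hw1 (hR (σ ⟨k, hk'⟩)) (hR (σ ⟨k + 1, hk⟩))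
        (hV _) (hV _) (hd _ _ hne) (hmono hlt)
      have h3 : δ ≤ Ψ ⟨k + 1, hk⟩ - Ψ ⟨k, hk'⟩ := h2
      push_cast
      linarith
  have habs : ∀ i, |Ψ i| ≤ Wd (1 + ε) / 2 := fun i => by
    refine htop (1 + ε) (z0 (σ i)) (z1 (σ i)) (V0 (σ i)) (V1 (σ i)) (by linarith) (by linarith)
      (hR _).1 (hV _) fun α hα => ?_
    have h1 := (hR (σ i)).2 α 0 (by simpa using hα)
    simpa using h1
  have h1 := hstep (N - 1) (by omega)
  have h2 := abs_le.1 (habs ⟨0, hN⟩)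
  have h3 := abs_le.1 (habs ⟨N - 1, by omega⟩)
  have h4 : ((N - 1 : ℕ) : ℝ) = (N : ℝ) - 1 := by
    rw [Nat.cast_sub (by omega), Nat.cast_one]
  rw [h4] at h1
  linarith [h2.1, h3.2]

/-- Change of the sign of the axes. -/
lemma signs {ε w : ℝ} {N : ℕ} (z0 z1 V0 V1 : Fin N → ℝ)
    (hR : ∀ i, RhIn (1 + ε) w (z0 i) (z1 i) (V0 i) (V1 i)) (hV : ∀ i, |V1 i| ≤ |V0 i|)
    (hd : Disj w z0 z1 V0 V1) : ∃ V0' V1' : Fin N → ℝ,
      (∀ i, RhIn (1 + ε) w (z0 i) (z1 i) (V0' i) (V1' i)) ∧ (∀ i, |V1' i| ≤ V0' i) ∧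
      Disj w z0 z1 V0' V1' := by
  set s : Fin N → ℝ := fun i => if 0 ≤ V0 i then 1 else -1 with hs
  have hsa : ∀ i, |s i| = 1 := fun i => by
    simp only [hs]
    split_ifs
    · exact abs_one
    · rw [abs_neg, abs_one]
  have hss : ∀ i, s i ^ 2 = 1 := fun i => by
    rw [← sq_abs, hsa, one_pow]
  have hsV : ∀ i, s i * V0 i = |V0 i| := fun i => by
    simp only [hs]
    split_ifs with h
    · rw [one_mul, abs_of_nonneg h]
    · rw [abs_of_neg (not_le.1 h)]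
      ring
  refine ⟨fun i => s i * V0 i, fun i => s i * V1 i, fun i => ⟨?_, fun α β hab => ?_⟩, fun i => ?_,
    fun i j hij α β α' β' hab hab' e1 e2 => ?_⟩
  · have := (hR i).1
    have h2 := hss i
    linear_combination this + (V0 i ^ 2 + V1 i ^ 2) * h2
  · have h1 := (hR i).2 (s i * α) (s i * β) (by rw [abs_mul, abs_mul, hsa, one_mul, one_mul]; exact hab)
    have e1 : z0 i + α * (s i * V0 i) - β * (s i * V1 i) =
        z0 i + s i * α * V0 i - s i * β * V1 i := by ring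
    have e2 : z1 i + α * (s i * V1 i) + β * (s i * V0 i) =
        z1 i + s i * α * V1 i + s i * β * V0 i := by ring
    rw [e1, e2]
    exact h1
  · change |s i * V1 i| ≤ s i * V0 i
    rw [hsV, abs_mul, hsa, one_mul]
    exact hV i
  · refine hd i j hij (s i * α) (s i * β) (s j * α') (s j * β')
      (by rw [abs_mul, abs_mul, hsa, one_mul, one_mul]; exact hab)
      (by rw [abs_mul, abs_mul, hsa, one_mul, one_mul]; exact hab') ?_ ?_
    · linarith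
    · linarith

end AuxCore

open AuxCore in
/-- (Core) -/
theorem pr_Core (h1 : S_Pair) (h2 : S_PsiTop) (h4 : ClaimCross) : S_Core := by
  obtain ⟨C, ε₁, hC, hε₁, hpair⟩ := h1
  refine ⟨C, min ε₁ (1 / 100), hC, by positivity, ?_⟩
  intro ε w N z0 z1 V0 V1 hε hε' hw hw' hN hR hd
  have hε1 : ε ≤ ε₁ := hε'.trans (min_le_left _ _)
  have hε2 : ε ≤ 1 / 100 := hε'.trans (min_le_right _ _)
  have hw1 : w ≤ ε₁ := hw'.trans (min_le_left _ _)
  have hw2 : w ≤ 1 / 100 := hw'.trans (min_le_right _ _)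
  have hone : ∀ (z0 z1 V0 V1 : Fin N → ℝ),
      (∀ i, RhIn (1 + ε) w (z0 i) (z1 i) (V0 i) (V1 i)) → (∀ i, |V1 i| ≤ |V0 i|) →
      Disj w z0 z1 V0 V1 → ((N : ℝ) - 1) * (w * (1 - C * ε ^ 2 - C * w)) ≤ Wd (1 + ε) := by
    intro z0 z1 V0 V1 hR hV hd
    obtain ⟨V0', V1', a1, a2, a3⟩ := signs z0 z1 V0 V1 hR hV hd
    exact core0 hpair h2 hε hε1 hε2 hw hw1 (by linarith) hN z0 z1 V0' V1' a1 a2 a3
  by_cases hV : ∀ i, |V1 i| ≤ |V0 i|
  · exact hone z0 z1 V0 V1 hR hV hd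
  · push Not at hV
    obtain ⟨i0, hi0⟩ := hV
    have hV' : ∀ j, |V0 j| ≤ |V1 j| := by
      intro j
      by_contra hj
      push Not at hj
      have hne : j ≠ i0 := by
        rintro rfl
        linarith
      obtain ⟨α, α', a1, a2, a3, a4⟩ := h4 ε w (z0 j) (z1 j) (V0 j) (V1 j) (z0 i0) (z1 i0)
        (V0 i0) (V1 i0) hε (by linarith) hw (by linarith) (hR j) (hR i0) hj.le hi0.le
      refine hd j i0 hne α 0 α' 0 ?_ ?_ ?_ ?_
      · simpa using a1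
      · simpa using a2
      · simpa using a3
      · simpa using a4
    refine hone z1 z0 V1 V0 ?_ hV' ?_
    · intro i
      obtain ⟨r1, r2⟩ := hR i
      refine ⟨by rw [add_comm]; exact r1, fun α β hab => ?_⟩
      have := r2 α (-β) (by rwa [abs_neg])
      have e1 : z0 i + α * V0 i - -β * V1 i = z0 i + α * V0 i + β * V1 i := by ring
      have e2 : z1 i + α * V1 i + -β * V0 i = z1 i + α * V1 i - β * V0 i := by ring
      rw [e1, e2] at this
      linarith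
    · intro i j hij α β α' β' hab hab' e1 e2
      refine hd i j hij α (-β) α' (-β') (by rwa [abs_neg]) (by rwa [abs_neg]) ?_ ?_
      · linarith
      · linarith

end Pool.Agent.Potatoes.TT
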