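import Pool.Agent.Work.MP_72041b_co.TT.Stmts

/-!
# MP_72041b_co, block TT, item LowTT: the lower bound
-/

set_option autoImplicit false

namespace Pool.Agent.Potatoes.TT

open MeasureTheory Set Metric Filter Topology

namespace AuxLowTT

open Low2

/-- `N` thin rhombi which are placed in the square. -/
lemma placed (hs : ClaimStd) (h1 : ClaimThin) (h2 : ClaimThin2) {t c ε : ℝ} (ht : 0 < t)
    (hc : 0 < c) (hc1 : c = 1 + ε) (hW : Works 2 1 t c) {N : ℕ} (hN : 0 < N)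
    (hw1 : 2 * t / N ≤ 1) : ∃ z0 z1 V0 V1 : Fin N → ℝ,
      (∀ i, RhIn (1 + ε) (2 * t / N) (z0 i) (z1 i) (V0 i) (V1 i)) ∧
      ∀ i j, i ≠ j → ∀ α β α' β' : ℝ, |α| + |β| / (2 * t / N) ≤ 1 / 2 →
        |α'| + |β'| / (2 * t / N) ≤ 1 / 2 →
        z0 i + α * V0 i - β * V1 i = z0 j + α' * V0 j - β' * V1 j →
        z1 i + α * V1 i + β * V0 i = z1 j + α' * V1 j + β' * V0 j → False := by
  obtain ⟨κ, -, hthin⟩ := h1 1 le_rfl
  have hNR : (0 : ℝ) < N := by exact_mod_cast hN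
  set w : ℝ := 2 * t / N with hwdef
  have hw : 0 < w := by positivity
  obtain ⟨hB, hdm, -, -⟩ := hthin w hw hw1
  have hfin : volume (thin 1 w) ≠ ⊤ := hB.compact.measure_lt_top.ne
  have hvol : volume (thin 1 w) ≤ ENNReal.ofReal (w / 2) := by
    rw [← ENNReal.ofReal_toReal hfin]
    exact ENNReal.ofReal_le_ofReal (h2 w hw hw1)
  have hsum : ∑' i : Fin N, volume ((fun _ => thin 1 w) i) ≤ ENNReal.ofReal t := by
    rw [tsum_fintype]
    simp only [Finset.sum_const, Finset.card_univ, Fintype.card_fin, nsmul_eq_mul]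
    calc (N : ENNReal) * volume (thin 1 w) ≤ (N : ENNReal) * ENNReal.ofReal (w / 2) :=
          mul_le_mul' le_rfl hvol
      _ = ENNReal.ofReal (N * (w / 2)) := by
          rw [← ENNReal.ofReal_natCast, ← ENNReal.ofReal_mul (by positivity)]
      _ = ENNReal.ofReal t := by
          congr 1
          rw [hwdef]
          field_simp
  obtain ⟨g, hg1, hg2⟩ := ((hs 2 1 t c (by norm_num) hc).1.1 hW) (Fin N)
    (fun _ => thin 1 w) (fun _ => hB) (fun _ => hdm) hsum
  choose z0 z1 V0 V1 σ hVV hσ hgy using fun i => iso (g i)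
  have hσa : ∀ i, |σ i| = 1 := by
    intro i
    have : |σ i| ^ 2 = 1 := by rw [sq_abs]; exact hσ i
    nlinarith [abs_nonneg (σ i)]
  have hmem : ∀ i (α β : ℝ), |α| + |β| / w ≤ 1 / 2 → pt α (σ i * β) ∈ thin 1 w := by
    intro i α β hab
    rw [thin_mem, abs_mul, hσa, one_mul]
    exact hab
  have hσσ : ∀ i (β : ℝ), σ i * (σ i * β) = β := by
    intro i β
    have := hσ i
    linear_combination β * this
  have hgy' : ∀ i (α β : ℝ), y0 (g i (pt α (σ i * β))) = z0 i + α * V0 i - β * V1 i ∧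
      y1 (g i (pt α (σ i * β))) = z1 i + α * V1 i + β * V0 i := by
    intro i α β
    have := hgy i α (σ i * β)
    rw [hσσ] at this
    exact this
  refine ⟨z0, z1, V0, V1, fun i => ⟨hVV i, fun α β hab => ?_⟩, ?_⟩
  · have hin := hg1 i (mem_image_of_mem _ (hmem i α β hab))
    have := cube_mem hin
    rw [(hgy' i α β).1, (hgy' i α β).2, hc1] at this
    exact this
  · intro i j hij α β α' β' hab hab' e1 e2
    have hi := mem_image_of_mem (g i) (hmem i α β hab)
    have hj := mem_image_of_mem (g j) (hmem j α' β' hab')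
    have heq : g i (pt α (σ i * β)) = g j (pt α' (σ j * β')) := by
      refine y_inj ?_ ?_
      · rw [(hgy' i α β).1, (hgy' j α' β').1]
        exact e1
      · rw [(hgy' i α β).2, (hgy' j α' β').2]
        exact e2
    rw [← heq] at hj
    exact Set.disjoint_left.1 (hg2 i j hij) hi hj

end AuxLowTT

open AuxLowTT in
/-- (LowTT) -/
theorem pr_LowTT (h1 : S_Core) (h2 : S_Wd) (hs : ClaimStd) (h0 : ClaimLow) (h3 : ClaimThin)
    (h4 : ClaimThin2) : S_LowTT := by
  obtain ⟨C₂, ε₂, hC₂, hε₂, hcore⟩ := h1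
  obtain ⟨β₁, C₁, hβ₁, hC₁, hcst, hmono⟩ := h2
  obtain ⟨c₀, hc₀, hlow⟩ := h0 1 le_rfl
  refine ⟨min (min β₁ (1 / 100)) (min (6 / C₁) (ε₂ / 2)), 16 * C₂, by positivity, by positivity,
    fun t c ht htβ hc hW => ?_⟩
  have t1 : t ≤ β₁ := htβ.trans ((min_le_left _ _).trans (min_le_left _ _))
  have t2 : t ≤ 1 / 100 := htβ.trans ((min_le_left _ _).trans (min_le_right _ _))
  have t3 : t ≤ 6 / C₁ := htβ.trans ((min_le_right _ _).trans (min_le_left _ _))
  have t4 : t ≤ ε₂ / 2 := htβ.trans ((min_le_right _ _).trans (min_le_right _ _))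
  obtain ⟨k1, k2, k3, k4⟩ := hcst t ht.le t1
  have ht3 : 0 < t ^ 3 := by positivity
  rcases le_total (cst t) c with hcc | hcc
  · have : 0 ≤ 16 * C₂ * t ^ 3 := by positivity
    linarith
  have hl := hlow t c ht hc hW
  rw [Nat.cast_one, Real.sqrt_one, min_eq_left (by linarith)] at hl
  have hpos := mul_pos hc₀ ht
  set ε := c - 1 with hεdef
  have hε : 0 < ε := by linarith
  have hc1 : c = 1 + ε := by rw [hεdef]; ring
  have hε2t : ε ≤ 2 * t := by
    have h5 := (abs_le.1 k4).2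
    have h6 : C₁ * t ^ 3 ≤ 6 * t ^ 2 := by
      rw [le_div_iff₀ hC₁] at t3
      have : C₁ * t ^ 3 = t * C₁ * t ^ 2 := by ring
      rw [this]
      exact mul_le_mul_of_nonneg_right t3 (by positivity)
    linarith
  have hεε : ε ≤ ε₂ := by linarith
  -- the estimate for `N` bodies
  have key : ∀ᶠ N : ℕ in atTop, (2 * t - 2 * t / N) * (1 - C₂ * ε ^ 2 - C₂ * (2 * t / N)) ≤
      Wd c := by
    have hw : Tendsto (fun N : ℕ => 2 * t / (N : ℝ)) atTop (𝓝 0) :=
      tendsto_const_div_atTop_nhds_zero_nat (2 * t)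
    have e1 : ∀ᶠ N : ℕ in atTop, 2 * t / (N : ℝ) < min ε₂ 1 :=
      hw.eventually (gt_mem_nhds (by positivity))
    filter_upwards [e1, eventually_gt_atTop 0] with N hN1 hN
    have hNR : (0 : ℝ) < N := by exact_mod_cast hN
    have hw0 : 0 < 2 * t / (N : ℝ) := by positivity
    have hw1 : 2 * t / (N : ℝ) ≤ 1 := (hN1.trans_le (min_le_right _ _)).le
    obtain ⟨z0, z1, V0, V1, hR, hd⟩ := placed hs h3 h4 ht hc hc1 hW hN hw1
    have h := hcore ε (2 * t / N) N z0 z1 V0 V1 hε hεε hw0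
      (hN1.trans_le (min_le_left _ _)).le hN hR hd
    rw [← hc1] at h
    have e2 : ((N : ℝ) - 1) * (2 * t / N * (1 - C₂ * ε ^ 2 - C₂ * (2 * t / N))) =
        (2 * t - 2 * t / N) * (1 - C₂ * ε ^ 2 - C₂ * (2 * t / N)) := by
      have : ((N : ℝ) - 1) * (2 * t / N) = 2 * t - 2 * t / N := by
        field_simp
      rw [← mul_assoc, this]
    rw [e2] at h
    exact h
  have hlim : 2 * t * (1 - C₂ * ε ^ 2) ≤ Wd c := by
    have hw : Tendsto (fun N : ℕ => 2 * t / (N : ℝ)) atTop (𝓝 0) :=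
      tendsto_const_div_atTop_nhds_zero_nat (2 * t)
    have h5 : Tendsto (fun N : ℕ => (2 * t - 2 * t / N) *
        (1 - C₂ * ε ^ 2 - C₂ * (2 * t / N))) atTop
        (𝓝 ((2 * t - 0) * (1 - C₂ * ε ^ 2 - C₂ * 0))) :=
      (tendsto_const_nhds.sub hw).mul (tendsto_const_nhds.sub (hw.const_mul C₂))
    rw [sub_zero, mul_zero, sub_zero] at h5
    exact le_of_tendsto h5 key
  have h6 := hmono c (cst t) (by linarith) hcc k2
  rw [k3] at h6
  have h7 : C₂ * ε ^ 2 ≤ C₂ * (2 * t) ^ 2 :=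
    mul_le_mul_of_nonneg_left (pow_le_pow_left₀ hε.le hε2t 2) hC₂.le
  have h8 : 2 * t * (C₂ * ε ^ 2) ≤ 2 * t * (C₂ * (2 * t) ^ 2) :=
    mul_le_mul_of_nonneg_left h7 (by positivity)
  have h9 : 2 * t * (C₂ * (2 * t) ^ 2) = 8 * C₂ * t ^ 3 := by ring
  linarith

end Pool.Agent.Potatoes.TT
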