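import Pool.Agent.Work.MP_72041b_co.TT.Stmts

/-!
# MP_72041b_co, block TT, item MainTT: three terms of the expansion for small `b`
-/

set_option autoImplicit false

namespace Pool.Agent.Potatoes.TT

namespace AuxMainTT

lemma scale_cst {a b t : ℝ} (ha : 0 < a) (ht : t = b / a ^ 2) :
    a * cst t = √((a ^ 2 + 4 * b + √(a ^ 4 + 8 * a ^ 2 * b - 16 * b ^ 2)) / 2) := by
  have hb : b = a ^ 2 * t := by
    rw [ht]
    field_simp
  have h1 : √(a ^ 4 + 8 * a ^ 2 * b - 16 * b ^ 2) = a ^ 2 * √(1 + 8 * t - 16 * t ^ 2) := by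
    have e : a ^ 4 + 8 * a ^ 2 * b - 16 * b ^ 2 = (a ^ 2) ^ 2 * (1 + 8 * t - 16 * t ^ 2) := by
      rw [hb]
      ring
    rw [e, Real.sqrt_mul (by positivity), Real.sqrt_sq (by positivity)]
  have h2 : (a ^ 2 + 4 * b + a ^ 2 * √(1 + 8 * t - 16 * t ^ 2)) / 2 =
      a ^ 2 * ((1 + 4 * t + √(1 + 8 * t - 16 * t ^ 2)) / 2) := by
    rw [hb]
    ring
  rw [h1, h2, Real.sqrt_mul (by positivity), Real.sqrt_sq ha.le, cst]

end AuxMainTT

open AuxMainTT in
/-- (MainTT) -/
theorem pr_MainTT (h1 : S_UpTT) (h2 : S_LowTT) (h3 : S_Wd) (hc : ClaimScale) : S_MainTT := by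
  obtain ⟨β1, hβ1, hup⟩ := h1
  obtain ⟨β2, C2, hβ2, hC2, hlow⟩ := h2
  obtain ⟨β3, C3, hβ3, hC3, hcst, hmono⟩ := h3
  set β0 : ℝ := min β1 (1 / 20) with hβ0
  have hβ00 : 0 < β0 := by positivity
  refine ⟨min (min β1 β2) (min β3 (min (1 / (C3 + 1)) (β0 / 6))), C3 + C2, by positivity,
    by positivity, ?_⟩
  intro a b ha hb hab
  obtain ⟨t, ht⟩ : ∃ t : ℝ, t = b / a ^ 2 := ⟨_, rfl⟩
  have ht0 : 0 < t := by rw [ht]; positivity
  have htb : t ≤ min (min β1 β2) (min β3 (min (1 / (C3 + 1)) (β0 / 6))) := by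
    rw [ht, div_le_iff₀ (by positivity)]
    exact hab
  have t1 : t ≤ β1 := htb.trans ((min_le_left _ _).trans (min_le_left _ _))
  have t2 : t ≤ β2 := htb.trans ((min_le_left _ _).trans (min_le_right _ _))
  have t3 : t ≤ β3 := htb.trans ((min_le_right _ _).trans (min_le_left _ _))
  have t4 : t ≤ 1 / (C3 + 1) :=
    htb.trans ((min_le_right _ _).trans ((min_le_right _ _).trans (min_le_left _ _)))
  have t5 : t ≤ β0 / 6 :=
    htb.trans ((min_le_right _ _).trans ((min_le_right _ _).trans (min_le_right _ _)))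
  obtain ⟨k1, k2, k3, k4⟩ := hcst t ht0.le t3
  have k5 := abs_le.1 k4
  have hβ01 : β0 ≤ β1 := min_le_left _ _
  have hβ02 : β0 ≤ 1 / 20 := min_le_right _ _
  have ht3 : C3 * t ^ 3 ≤ 6 * t ^ 2 := by
    rw [le_div_iff₀ (by positivity)] at t4
    have e : C3 * t ^ 3 = (t * C3) * t ^ 2 := by ring
    rw [e]
    exact mul_le_mul_of_nonneg_right (by nlinarith) (by positivity)
  have hcb : cst t < 1 + β0 := by linarith
  have hbdd : BddBelow {c : ℝ | 0 < c ∧ Works 2 a b c} := ⟨0, fun c hcc => hcc.1.le⟩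
  have hmem : ∀ c, a * cst t < c → c ≤ a * (1 + β0) →
      c ∈ {c : ℝ | 0 < c ∧ Works 2 a b c} := by
    intro c hcc hcu
    have hc0 : 0 < c := lt_trans (mul_pos ha (by linarith)) hcc
    refine ⟨hc0, ?_⟩
    have e1 : cst t < c / a := by
      rw [lt_div_iff₀ ha]
      linarith
    have e2 : c / a ≤ 1 + β0 := by
      rw [div_le_iff₀ ha]
      linarith
    have e3 := hmono (cst t) (c / a) k1 e1.le (by linarith)
    rw [k3] at e3
    have e4 := hup t (c / a) ht0 t1 (by linarith) (by linarith) (by linarith)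
    have e5 := hc 2 1 t (c / a) a (by norm_num) one_pos ht0 (by positivity) ha e4
    have e6 : a * 1 = a := mul_one a
    have e7 : a ^ 2 * t = b := by
      rw [ht]
      field_simp
    have e8 : a * (c / a) = c := by
      field_simp
    rwa [e6, e7, e8] at e5
  have hup' : f 2 a b ≤ a * cst t := by
    refine le_of_forall_gt_imp_ge_of_dense fun c hcc => ?_
    have e1 : a * cst t < a * (1 + β0) := mul_lt_mul_of_pos_left hcb ha
    have e2 := csInf_le hbdd (hmem (min c (a * (1 + β0))) (lt_min hcc e1) (min_le_right _ _))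
    exact e2.trans (min_le_left _ _)
  have hlow' : a * (cst t - C2 * t ^ 3) ≤ f 2 a b := by
    have e1 : a * cst t < a * (1 + β0) := mul_lt_mul_of_pos_left hcb ha
    refine le_csInf ⟨a * (1 + β0), hmem _ e1 le_rfl⟩ ?_
    rintro c ⟨hc0, hW⟩
    have e3 := hc 2 a b c (1 / a) (by norm_num) ha hb hc0 (by positivity) hW
    have e4 : 1 / a * a = 1 := by
      field_simp
    have e5 : (1 / a) ^ 2 * b = t := by
      rw [ht]
      field_simp
    have e6 : 1 / a * c = c / a := by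
      field_simp
    rw [e4, e5, e6] at e3
    have e7 := hlow t (c / a) ht0 t2 (by positivity) e3
    rw [le_div_iff₀ ha] at e7
    linarith
  refine ⟨?_, ?_⟩
  · have e1 : a + 2 * b / a - 6 * b ^ 2 / a ^ 3 = a * (1 + 2 * t - 6 * t ^ 2) := by
      rw [ht]
      field_simp
    have e2 : (C3 + C2) * b ^ 3 / a ^ 5 = a * ((C3 + C2) * t ^ 3) := by
      rw [ht]
      field_simp
    have e3 : 0 ≤ a * (C2 * t ^ 3) := by positivity
    have e4 : a * (cst t - (1 + 2 * t - 6 * t ^ 2)) ≤ a * (C3 * t ^ 3) :=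
      mul_le_mul_of_nonneg_left k5.2 ha.le
    have e5 : a * (-(C3 * t ^ 3)) ≤ a * (cst t - (1 + 2 * t - 6 * t ^ 2)) :=
      mul_le_mul_of_nonneg_left k5.1 ha.le
    rw [e1, e2, abs_le]
    constructor
    · linarith
    · linarith
  · rw [← scale_cst ha ht]
    exact hup'

end Pool.Agent.Potatoes.TT
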