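import Pool.Agent.Work.MP_72041b_co.TT.I_Slot

/-!
# MP_72041b_co, block TT, item UpTT: the upper bound
-/

set_option autoImplicit false

namespace Pool.Agent.Potatoes.TT

open MeasureTheory Set Metric
open scoped RealInnerProductSpace

namespace AuxUpTT

lemma inner_basisFun (l : Fin 2) (x : E 2) :
    (⟪EuclideanSpace.basisFun (Fin 2) ℝ l, x⟫ : ℝ) = x l := by
  rw [← OrthonormalBasis.repr_apply_apply, EuclideanSpace.basisFun_repr]

/-- The frame change: the sheared coordinates of the square. -/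
lemma frame {κ s : ℝ} (hs : 0 < s) (h : s ^ 2 * (1 + κ ^ 2) = 1) : ∃ G : E 2 ≃ᵢ E 2, ∀ x,
    G x 0 = s * (x 0 - κ * x 1) - s / 2 ∧ G x 1 = s * (κ * x 0 + x 1) - s / 2 := by
  have hl : 0 < 1 / s := by positivity
  obtain ⟨v, hv0, hv1, -⟩ := AuxSlot.exists_rot (EuclideanSpace.basisFun (Fin 2) ℝ)
    (a := 1) (b := -κ) (l := 1 / s) hl (by
      rw [div_pow, eq_div_iff (by positivity)]
      nlinarith)
  set τ : E 2 := !₂[-(s / 2), -(s / 2)] with hτ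
  refine ⟨v.repr.toIsometryEquiv.trans (IsometryEquiv.addRight τ), fun x => ⟨?_, ?_⟩⟩
  · change (v.repr x + τ) 0 = _
    rw [PiLp.add_apply, v.repr_apply_apply, hv0, inner_basisFun, inner_basisFun]
    simp only [hτ, Matrix.cons_val_zero, PiLp.toLp_apply]
    field_simp
    ring
  · change (v.repr x + τ) 1 = _
    rw [PiLp.add_apply, v.repr_apply_apply, hv1, inner_basisFun, inner_basisFun]
    simp only [hτ, Matrix.cons_val_one, Matrix.cons_val_fin_one, PiLp.toLp_apply]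
    field_simp
    ring

/-- Translation. -/
lemma trans (g : E 2 ≃ᵢ E 2) (a b : ℝ) : ∃ γ : E 2 ≃ᵢ E 2, ∀ x,
    γ x 0 = g x 0 + a ∧ γ x 1 = g x 1 + b := by
  refine ⟨g.trans (IsometryEquiv.addRight (!₂[a, b] : E 2)), fun x => ⟨?_, ?_⟩⟩
  · change (g x + (!₂[a, b] : E 2)) 0 = _
    rw [PiLp.add_apply]
    simp
  · change (g x + (!₂[a, b] : E 2)) 1 = _
    rw [PiLp.add_apply]
    simp

end AuxUpTT

open AuxUpTT in
/-- (UpTT) -/
theorem pr_UpTT (h1 : S_Slot) (h2 : S_ArrB) (h3 : S_ArrS) (hs : ClaimStd) (hb : ClaimBox2)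
    (hst : ClaimStack) (hbn : ClaimBins) : S_UpTT := by
  obtain ⟨η, hη, h1⟩ := h1
  have h2 := h2 hst
  obtain ⟨δ, β₀, hδ, hδ1, hβ₀, h3⟩ := h3 hbn
  set β : ℝ := min (min β₀ (η * δ ^ 2)) (min (δ / 16) (1 / 40)) with hβd
  have hβ : 0 < β := by positivity
  have hβ1 : β ≤ β₀ := (min_le_left _ _).trans (min_le_left _ _)
  have hβ2 : β ≤ η * δ ^ 2 := (min_le_left _ _).trans (min_le_right _ _)
  have hβ3 : β ≤ δ / 16 := (min_le_right _ _).trans (min_le_left _ _)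
  have hβ4 : β ≤ 1 / 40 := (min_le_right _ _).trans (min_le_right _ _)
  refine ⟨β, hβ, fun t c ht htβ hc1 hcβ htW => ?_⟩
  have hc : 0 < c := by linarith
  -- the number `κ`
  have hc2 : c ^ 2 ≤ 1 + 3 * β := by nlinarith
  have hc2' : 1 ≤ c ^ 2 := by nlinarith
  have hrad : 0 < 2 - c ^ 2 := by linarith
  have hsq : √(2 - c ^ 2) ^ 2 = 2 - c ^ 2 := Real.sq_sqrt hrad.le
  have hsq1 : √(2 - c ^ 2) ≤ 1 := Real.sqrt_le_one.2 (by linarith)
  have hsq0 : 0 < √(2 - c ^ 2) := Real.sqrt_pos.2 hrad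
  have hsq2 : 2 - c ^ 2 ≤ √(2 - c ^ 2) := by nlinarith
  have hcgt : 1 < c := by
    rcases hc1.eq_or_lt with h | h
    · exfalso
      rw [← h] at htW
      have : Wd 1 = 0 := by
        rw [Wd]
        norm_num
      rw [this] at htW
      linarith
    · exact h
  set κ : ℝ := √(2 - c ^ 2) / c with hκd
  have hκc : κ * c = √(2 - c ^ 2) := by
    rw [hκd]
    field_simp
  have hκ : 0 < κ := by positivity
  have hκ1 : κ < 1 := by
    rw [hκd, div_lt_one hc]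
    linarith
  have hκ2 : (1 + κ ^ 2) * c ^ 2 = 2 := by
    have : (1 + κ ^ 2) * c ^ 2 = c ^ 2 + (κ * c) ^ 2 := by ring
    rw [this, hκc, hsq]
    ring
  have hκp : 0 < 1 + κ ^ 2 := by positivity
  have hWd : (1 - κ) / (1 + κ ^ 2) = Wd c := by
    rw [div_eq_iff hκp.ne', Wd, ← hκc]
    linear_combination (-(1 - κ) / 2) * hκ2
  have hWd1 : Wd c < 1 / 10 := by
    have h5 : 2 - c ^ 2 ≤ c * √(2 - c ^ 2) := by nlinarith
    rw [Wd]
    linarith
  have hlκ : 1 ≤ (1 + δ / 2) * κ := by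
    have h5 : c ≤ (1 + δ / 2) * √(2 - c ^ 2) := by
      have h6 : (1 + δ / 2) * (1 - 3 * β) ≤ (1 + δ / 2) * √(2 - c ^ 2) :=
        mul_le_mul_of_nonneg_left (by linarith) (by linarith)
      have h7 : 1 + β ≤ (1 + δ / 2) * (1 - 3 * β) := by nlinarith
      linarith
    rw [← hκc] at h5
    have h8 : c * 1 ≤ c * ((1 + δ / 2) * κ) := by linarith
    exact le_of_mul_le_mul_left h8 hc
  -- the side
  set s : ℝ := c / √2 with hsd
  have hs2 : (0 : ℝ) < √2 := by positivity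
  have hs0 : 0 < s := by positivity
  have hss : s ^ 2 * (1 + κ ^ 2) = 1 := by
    rw [hsd, div_pow, Real.sq_sqrt (by norm_num)]
    linear_combination hκ2 / 2
  obtain ⟨G, hG⟩ := frame hs0 hss
  rw [(hs 2 1 t c (by norm_num) hc).1]
  intro ι _ K hK hd hvol
  have hvol_ne : ∑' i, volume (K i) ≠ ⊤ := ne_top_of_le_ne_top ENNReal.ofReal_ne_top hvol
  have hsumvol : Summable fun i => volume.real (K i) := ENNReal.summable_toReal hvol_ne
  have htsvol : ∑' i, volume.real (K i) ≤ t := by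
    have h3 : ∑' i, volume.real (K i) = (∑' i, volume (K i)).toReal := by
      rw [ENNReal.tsum_toReal_eq (fun i => ENNReal.ne_top_of_tsum_ne_top hvol_ne i)]
      rfl
    rw [h3]
    exact ENNReal.toReal_le_of_le_ofReal ht.le hvol
  have hvnn : ∀ i, 0 ≤ volume.real (K i) := fun i => measureReal_nonneg
  have hvt : ∀ i, volume.real (K i) ≤ t := fun i =>
    (hsumvol.le_tsum i (fun j _ => hvnn j)).trans htsvol
  -- the big bodies
  have hslot : ∀ i : {i : ι // δ ≤ diam (K i)}, ∃ (g : E 2 ≃ᵢ E 2) (l H : ℝ), 0 < H ∧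
      diam (K i) / 2 ≤ l ∧ l ≤ diam (K i) ∧ l * H ≤ 2 * volume.real (K i) ∧
      ∀ x ∈ K i, 0 ≤ g x 0 - κ * g x 1 ∧ g x 0 - κ * g x 1 ≤ l ∧ 0 ≤ g x 1 ∧ g x 1 ≤ H := by
    intro i
    refine h1 κ hκ hκ1.le (K i) (hK i) ?_
    have h5 : δ ^ 2 ≤ diam (K i) ^ 2 := pow_le_pow_left₀ hδ.le i.2 2
    have h6 : η * δ ^ 2 ≤ η * diam (K i) ^ 2 := mul_le_mul_of_nonneg_left h5 hη.le
    linarith [hvt i]
  choose g₁ l H hH hl1 hl2 hlH hg₁ using hslot
  have hlpos : ∀ i, 0 < l i := fun i => by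
    have := i.2
    linarith [hl1 i]
  have hvB : Summable fun i : {i : ι // δ ≤ diam (K i)} => volume.real (K i) :=
    hsumvol.subtype _
  have hsB : Summable fun i => l i * H i :=
    Summable.of_nonneg_of_le (fun i => (mul_pos (hlpos i) (hH i)).le) hlH (hvB.mul_left 2)
  have hTB : ∑' i, l i * H i ≤ 2 * t := by
    calc ∑' i, l i * H i ≤ ∑' i : {i : ι // δ ≤ diam (K i)}, 2 * volume.real (K i) :=
          hsB.tsum_le_tsum hlH (hvB.mul_left 2)
      _ = 2 * ∑' i : {i : ι // δ ≤ diam (K i)}, volume.real (K i) := tsum_mul_left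
      _ ≤ 2 * t := by
          have := hsumvol.tsum_subtype_le _ {i : ι | δ ≤ diam (K i)} hvnn
          have h6 : ∑' i : {i : ι // δ ≤ diam (K i)}, volume.real (K i) ≤ t :=
            this.trans htsvol
          linarith
  obtain ⟨Y, hY1, hY2⟩ := h2 t κ (δ / 2) ht hκ hκ1 (by rw [hWd]; exact htW) (by positivity) hlκ
    {i : ι // δ ≤ diam (K i)} l H (fun i => ⟨by linarith [hl1 i, i.2],
      (hl2 i).trans (hd i), hH i⟩) hsB hTB
  -- the small bodies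
  choose u p w hw0 hw1 hw10 hbox harea using fun i => hb (K i) (hK i)
  have hpos : ∀ i, 0 < w i 0 := fun i => lt_of_lt_of_le (hw1 i) (hw10 i)
  have hvS : Summable fun i : {i : ι // ¬ δ ≤ diam (K i)} => volume.real (K i) :=
    hsumvol.subtype _
  have hsS : Summable fun i : {i : ι // ¬ δ ≤ diam (K i)} => w i 0 * w i 1 :=
    Summable.of_nonneg_of_le (fun i => (mul_pos (hpos i) (hw1 i)).le) (fun i => harea i)
      (hvS.mul_left 2)
  have hTS : ∑' i : {i : ι // ¬ δ ≤ diam (K i)}, w i 0 * w i 1 ≤ 2 * t := by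
    calc ∑' i : {i : ι // ¬ δ ≤ diam (K i)}, w i 0 * w i 1 ≤
          ∑' i : {i : ι // ¬ δ ≤ diam (K i)}, 2 * volume.real (K i) :=
          hsS.tsum_le_tsum (fun i => harea i) (hvS.mul_left 2)
      _ = 2 * ∑' i : {i : ι // ¬ δ ≤ diam (K i)}, volume.real (K i) := tsum_mul_left
      _ ≤ 2 * t := by
          have := hsumvol.tsum_subtype_le _ {i : ι | ¬ δ ≤ diam (K i)} hvnn
          have h6 : ∑' i : {i : ι // ¬ δ ≤ diam (K i)}, volume.real (K i) ≤ t :=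
            this.trans htsvol
          linarith
  obtain ⟨P, hP1, hP2⟩ := h3 t ht (htβ.trans hβ1) {i : ι // ¬ δ ≤ diam (K i)}
    (fun i => w i) (fun i m => by
      have h5 : w i 0 ≤ δ := by
        rw [hw0 i]
        exact (not_le.1 i.2).le
      fin_cases m
      · exact ⟨hpos i, h5⟩
      · exact ⟨hw1 i, (hw10 i).trans h5⟩) hsS hTS
  -- the isometries
  have hgB : ∀ i : {i : ι // δ ≤ diam (K i)}, ∃ γ : E 2 ≃ᵢ E 2, ∀ x ∈ K i,
      (1 - l i ≤ γ x 0 - κ * γ x 1 ∧ γ x 0 - κ * γ x 1 ≤ 1) ∧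
        Y i ≤ γ x 1 ∧ γ x 1 ≤ Y i + H i := by
    intro i
    obtain ⟨γ, hγ⟩ := trans (g₁ i) ((1 - l i) + κ * Y i) (Y i)
    refine ⟨γ, fun x hx => ?_⟩
    obtain ⟨a1, a2, a3, a4⟩ := hg₁ i x hx
    obtain ⟨b1, b2⟩ := hγ x
    rw [b1, b2]
    refine ⟨⟨by linarith, by linarith⟩, by linarith, by linarith⟩
  choose γB hγB using hgB
  have hgS : ∀ i : {i : ι // ¬ δ ≤ diam (K i)}, ∃ γ : E 2 ≃ᵢ E 2, ∀ x ∈ K i,
      (1 / 4 + P i 0 ≤ γ x 0 ∧ γ x 0 ≤ 1 / 4 + P i 0 + w i 0) ∧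
        1 / 10 + P i 1 ≤ γ x 1 ∧ γ x 1 ≤ 1 / 10 + P i 1 + w i 1 := by
    intro i
    obtain ⟨γ, hγ⟩ := Up2.exists_iso (u i) (EuclideanSpace.basisFun (Fin 2) ℝ)
      ![1 / 4 + P i 0 - p i 0, 1 / 10 + P i 1 - p i 1]
    refine ⟨γ, fun x hx => ?_⟩
    have b0 := hγ x 0
    have b1 := hγ x 1
    rw [inner_basisFun] at b0 b1
    simp only [Matrix.cons_val_zero, Matrix.cons_val_one, Matrix.cons_val_fin_one] at b0 b1
    have e0 := hbox i x hx 0
    have e1 := hbox i x hx 1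
    rw [b0, b1]
    refine ⟨⟨by linarith [e0.1], by linarith [e0.2]⟩, by linarith [e1.1], by linarith [e1.2]⟩
  choose γS hγS using hgS
  classical
  set γ : ι → (E 2 ≃ᵢ E 2) := fun i =>
    if hi : δ ≤ diam (K i) then γB ⟨i, hi⟩ else γS ⟨i, hi⟩ with hγd
  have hγ1 : ∀ (i : ι) (hi : δ ≤ diam (K i)), γ i = γB ⟨i, hi⟩ := fun i hi => by
    simp only [hγd, hi, dite_true]
  have hγ2 : ∀ (i : ι) (hi : ¬ δ ≤ diam (K i)), γ i = γS ⟨i, hi⟩ := fun i hi => by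
    simp only [hγd, hi, dite_false]
  refine ⟨fun i => (γ i).trans G, ?_, ?_⟩
  · rintro i _ ⟨x, hx, rfl⟩
    have hin : (0 ≤ γ i x 0 - κ * γ i x 1 ∧ γ i x 0 - κ * γ i x 1 ≤ 1) ∧
        0 ≤ κ * γ i x 0 + γ i x 1 ∧ κ * γ i x 0 + γ i x 1 ≤ 1 := by
      by_cases hi : δ ≤ diam (K i)
      · rw [hγ1 i hi]
        obtain ⟨⟨a1, a2⟩, a3, a4⟩ := hγB ⟨i, hi⟩ x hx
        obtain ⟨c1, c2⟩ := hY1 ⟨i, hi⟩
        have hl3 : l ⟨i, hi⟩ ≤ 1 := (hl2 ⟨i, hi⟩).trans (hd i)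
        generalize γB ⟨i, hi⟩ x 0 = X at *
        generalize γB ⟨i, hi⟩ x 1 = Z at *
        have e : κ * X + Z = κ * (X - κ * Z) + (1 + κ ^ 2) * Z := by ring
        have e1 : κ * (1 - l ⟨i, hi⟩) ≤ κ * (X - κ * Z) := mul_le_mul_of_nonneg_left a1 hκ.le
        have e2 : κ * (X - κ * Z) ≤ κ * 1 := mul_le_mul_of_nonneg_left a2 hκ.le
        have e3 : (1 + κ ^ 2) * Y ⟨i, hi⟩ ≤ (1 + κ ^ 2) * Z :=
          mul_le_mul_of_nonneg_left a3 hκp.le
        have e4 : (1 + κ ^ 2) * Z ≤ (1 + κ ^ 2) * (Y ⟨i, hi⟩ + H ⟨i, hi⟩) :=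
          mul_le_mul_of_nonneg_left a4 hκp.le
        rw [e]
        refine ⟨⟨by linarith, a2⟩, by linarith, by linarith⟩
      · rw [hγ2 i hi]
        obtain ⟨⟨a1, a2⟩, a3, a4⟩ := hγS ⟨i, hi⟩ x hx
        obtain ⟨c1, c2⟩ := hP1 ⟨i, hi⟩ 0
        obtain ⟨c3, c4⟩ := hP1 ⟨i, hi⟩ 1
        generalize γS ⟨i, hi⟩ x 0 = X at *
        generalize γS ⟨i, hi⟩ x 1 = Z at *
        have b1 : 1 / 4 ≤ X := by linarith
        have b2 : X ≤ 2 / 5 := by linarith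
        have b3 : 1 / 10 ≤ Z := by linarith
        have b4 : Z ≤ 1 / 4 := by linarith
        have b5 : κ * Z ≤ 1 * Z := mul_le_mul_of_nonneg_right hκ1.le (by linarith)
        have b6 : κ * X ≤ 1 * X := mul_le_mul_of_nonneg_right hκ1.le (by linarith)
        have b7 : 0 ≤ κ * Z := mul_nonneg hκ.le (by linarith)
        have b8 : 0 ≤ κ * X := mul_nonneg hκ.le (by linarith)
        refine ⟨⟨by linarith, by linarith⟩, by linarith, by linarith⟩
    obtain ⟨⟨d1, d2⟩, d3, d4⟩ := hin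
    obtain ⟨q0, q1⟩ := hG (γ i x)
    have f1 : 0 ≤ s * (γ i x 0 - κ * γ i x 1) := mul_nonneg hs0.le d1
    have f2 : s * (γ i x 0 - κ * γ i x 1) ≤ s * 1 := mul_le_mul_of_nonneg_left d2 hs0.le
    have f3 : 0 ≤ s * (κ * γ i x 0 + γ i x 1) := mul_nonneg hs0.le d3
    have f4 : s * (κ * γ i x 0 + γ i x 1) ≤ s * 1 := mul_le_mul_of_nonneg_left d4 hs0.le
    intro m
    fin_cases m
    · change |G (γ i x) 0| ≤ c / √2 / 2
      rw [q0, ← hsd, abs_le]
      constructor <;> linarith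
    · change |G (γ i x) 1| ≤ c / √2 / 2
      rw [q1, ← hsd, abs_le]
      constructor <;> linarith
  · intro i j hij
    rw [Set.disjoint_left]
    rintro _ ⟨x, hx, rfl⟩ ⟨x', hx', hxx⟩
    have hxx' : γ j x' = γ i x := G.injective hxx
    by_cases hi : δ ≤ diam (K i)
    · by_cases hj : δ ≤ diam (K j)
      · rw [hγ1 i hi, hγ1 j hj] at hxx'
        obtain ⟨-, a3, a4⟩ := hγB ⟨i, hi⟩ x hx
        obtain ⟨-, b3, b4⟩ := hγB ⟨j, hj⟩ x' hx'
        rw [hxx'] at b3 b4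
        rcases hY2 ⟨i, hi⟩ ⟨j, hj⟩ (by simpa using hij) with h | h
        · linarith
        · linarith
      · rw [hγ1 i hi, hγ2 j hj] at hxx'
        obtain ⟨-, a3, a4⟩ := hγB ⟨i, hi⟩ x hx
        obtain ⟨-, b3, b4⟩ := hγS ⟨j, hj⟩ x' hx'
        rw [hxx'] at b3 b4
        have c1 := (hY1 ⟨i, hi⟩).2
        have c2 : Y ⟨i, hi⟩ + H ⟨i, hi⟩ ≤ (1 - κ) / (1 + κ ^ 2) := by
          rw [le_div_iff₀ hκp]
          linarith
        rw [hWd] at c2
        have c3 := (hP1 ⟨j, hj⟩ 1).1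
        linarith
    · by_cases hj : δ ≤ diam (K j)
      · rw [hγ2 i hi, hγ1 j hj] at hxx'
        obtain ⟨-, a3, a4⟩ := hγS ⟨i, hi⟩ x hx
        obtain ⟨-, b3, b4⟩ := hγB ⟨j, hj⟩ x' hx'
        rw [hxx'] at b3 b4
        have c1 := (hY1 ⟨j, hj⟩).2
        have c2 : Y ⟨j, hj⟩ + H ⟨j, hj⟩ ≤ (1 - κ) / (1 + κ ^ 2) := by
          rw [le_div_iff₀ hκp]
          linarith
        rw [hWd] at c2
        have c3 := (hP1 ⟨i, hi⟩ 1).1
        linarith
      · rw [hγ2 i hi, hγ2 j hj] at hxx'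
        obtain ⟨⟨a1, a2⟩, a3, a4⟩ := hγS ⟨i, hi⟩ x hx
        obtain ⟨⟨b1, b2⟩, b3, b4⟩ := hγS ⟨j, hj⟩ x' hx'
        rw [hxx'] at b1 b2 b3 b4
        obtain ⟨m, hm⟩ := hP2 ⟨i, hi⟩ ⟨j, hj⟩ (by simpa using hij)
        fin_cases m
        · simp only [Fin.zero_eta] at hm
          rcases hm with h | h
          · linarith
          · linarith
        · simp only [Fin.mk_one] at hm
          rcases hm with h | h
          · linarith
          · linarith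

end Pool.Agent.Potatoes.TT
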