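import Pool.Agent.Work.MP_72041b_co.TT.I_Wd
import Pool.Agent.Work.MP_72041b_co.TT.I_ArrB
import Pool.Agent.Work.MP_72041b_co.TT.I_ArrS
import Pool.Agent.Work.MP_72041b_co.TT.I_UpTT
import Pool.Agent.Work.MP_72041b_co.TT.I_Core
import Pool.Agent.Work.MP_72041b_co.TT.I_LowTT
import Pool.Agent.Work.MP_72041b_co.TT.I_MainTT

set_option autoImplicit false

/-!
# MP_72041b_co, block TT: assembly
-/

namespace Pool.Agent.Potatoes.TT

theorem all_UpTT : S_UpTT :=
  pr_UpTT pr_Slot pr_ArrB pr_ArrS claimStd claimBox2 claimStack claimBins_all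

theorem all_LowTT : S_LowTT :=
  pr_LowTT (pr_Core pr_Pair pr_PsiTop claimCross) pr_Wd claimStd claimLow_all claimThin claimThin2

theorem all_MainTT : S_MainTT := pr_MainTT all_UpTT all_LowTT pr_Wd claimScale

end Pool.Agent.Potatoes.TT
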