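import Pool.Agent.Work.MP_72041b_co.TT.I_PsiTop

/-!
# MP_72041b_co, block TT, item Pair: consecutive rhombi
-/

set_option autoImplicit false

namespace Pool.Agent.Potatoes.TT

open MeasureTheory Set

namespace AuxPair

/-- The right end of the chord of the line `y = p + m x` in the square `|x| + |y| ≤ R`. -/
noncomputable def rb (R p m : ℝ) : ℝ := min ((R - p) / (1 + m)) ((R + p) / (1 - m))

lemma le_rb {R p m x : ℝ} (hm : |m| < 1) :
    x ≤ rb R p m ↔ x + (p + m * x) ≤ R ∧ x - (p + m * x) ≤ R := by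
  have h := abs_lt.1 hm
  have h1 : 0 < 1 + m := by linarith
  have h2 : 0 < 1 - m := by linarith
  rw [rb, le_min_iff, le_div_iff₀ h1, le_div_iff₀ h2]
  constructor
  · rintro ⟨a, b⟩
    exact ⟨by linarith, by linarith⟩
  · rintro ⟨a, b⟩
    exact ⟨by linarith, by linarith⟩

lemma rb_le {R p m : ℝ} (hm : |m| < 1) : rb R p m ≤ R := by
  have h := abs_lt.1 hm
  have h1 : 0 < 1 + m := by linarith
  have h2 : 0 < 1 - m := by linarith
  rw [rb, min_le_iff, div_le_iff₀ h1, div_le_iff₀ h2]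
  rcases le_total (-p) (R * m) with h3 | h3
  · left; linarith
  · right; linarith

lemma rb_lip {R p m p' m' : ℝ} (hR : 0 ≤ R) (hR1 : R ≤ 3 / 5) (hm : |m| ≤ 1 / 10)
    (hm' : |m'| ≤ 1 / 10) (hp : |p| ≤ 1 / 10) (hp' : |p'| ≤ 1 / 10) :
    |rb R p m - rb R p' m'| ≤ 2 * (|p' - p| + |m' - m|) := by
  have h1 := abs_le.1 hm
  have h2 := abs_le.1 hm'
  have key : ∀ q n q' n' : ℝ, |q| ≤ 1 / 10 → |q'| ≤ 1 / 10 → |n| ≤ 1 / 10 → |n'| ≤ 1 / 10 →
      |(R - q) / (1 + n) - (R - q') / (1 + n')| ≤ 2 * (|q' - q| + |n' - n|) := by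
    intro q n q' n' hq hq' hn hn'
    have a1 := abs_le.1 hn
    have a2 := abs_le.1 hn'
    have b1 : 0 < 1 + n := by linarith
    have b2 : 0 < 1 + n' := by linarith
    have e : (R - q) / (1 + n) - (R - q') / (1 + n') =
        ((q' - q) * (1 + n') + (n' - n) * (R - q')) / ((1 + n) * (1 + n')) := by
      field_simp
      ring
    rw [e, abs_div, abs_of_pos (mul_pos b1 b2), div_le_iff₀ (mul_pos b1 b2)]
    have c1 : |(q' - q) * (1 + n') + (n' - n) * (R - q')| ≤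
        |q' - q| * (11 / 10) + |n' - n| * (11 / 10) := by
      refine (abs_add_le _ _).trans (add_le_add ?_ ?_)
      · rw [abs_mul]
        refine mul_le_mul_of_nonneg_left ?_ (abs_nonneg _)
        rw [abs_of_pos b2]
        linarith
      · rw [abs_mul]
        refine mul_le_mul_of_nonneg_left ?_ (abs_nonneg _)
        have := abs_le.1 hq'
        rw [abs_le]
        constructor <;> linarith
    have c2 : (81 : ℝ) / 100 ≤ (1 + n) * (1 + n') := by nlinarith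
    have c3 : 0 ≤ |q' - q| + |n' - n| := by positivity
    nlinarith
  have k1 := key p m p' m' hp hp' hm hm'
  have k2 := key (-p) (-m) (-p') (-m') (by rwa [abs_neg]) (by rwa [abs_neg]) (by rwa [abs_neg])
    (by rwa [abs_neg])
  have e1 : |-p' - -p| = |p' - p| := by
    rw [← abs_neg]
    congr 1
    ring
  have e2 : |-m' - -m| = |m' - m| := by
    rw [← abs_neg]
    congr 1
    ring
  rw [e1, e2, sub_neg_eq_add, sub_neg_eq_add, ← sub_eq_add_neg, ← sub_eq_add_neg] at k2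
  rw [rb, rb]
  exact (abs_min_sub_min_le_max _ _ _ _).trans (max_le k1 k2)

lemma clp_eq {c p m x : ℝ} (hm : |m| < 1) (h1 : x ≤ rb (c / 2) p m)
    (h2 : -x ≤ rb (c / 2) p (-m)) : clp c x (p + m * x) = p + m * x := by
  rw [le_rb hm] at h1
  rw [le_rb (by rwa [abs_neg])] at h2
  have e : -m * -x = m * x := by ring
  rw [e] at h2
  unfold clp
  have h3 : |x| + |p + m * x| ≤ c / 2 := by
    rcases abs_cases x with ⟨a, -⟩ | ⟨a, -⟩ <;>
      rcases abs_cases (p + m * x) with ⟨b, -⟩ | ⟨b, -⟩ <;> rw [a, b] <;> linarith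
  have h4 := abs_le.1 (le_refl |p + m * x|)
  rw [min_eq_right (by linarith), max_eq_right (by linarith)]

/-- The integrand is at least `min 0 g`. -/
lemma clp_diff {c x y y' K : ℝ} (hK : 0 ≤ K) (h : y - K ≤ y') :
    -K ≤ clp c x y' - clp c x y := by
  unfold clp
  have h1 : max (-(c / 2 - |x|)) (min (c / 2 - |x|) y) ≤
      max (-(c / 2 - |x|)) (min (c / 2 - |x|) y') + K := by
    refine max_le ?_ ?_
    · have := le_max_left (-(c / 2 - |x|)) (min (c / 2 - |x|) y')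
      linarith
    · have h2 := le_max_right (-(c / 2 - |x|)) (min (c / 2 - |x|) y')
      have h3 : min (c / 2 - |x|) y ≤ min (c / 2 - |x|) y' + K := by
        rcases le_total (c / 2 - |x|) y' with h4 | h4
        · rw [min_eq_left h4]
          have := min_le_left (c / 2 - |x|) y
          linarith
        · rw [min_eq_right h4]
          have := min_le_right (c / 2 - |x|) y
          linarith
      linarith
  linarith

/-- The half height of the rhombus. -/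
noncomputable def hh (w z₀ V₀ x : ℝ) : ℝ := w / 2 * (1 - w) * (1 - 2 * |x - z₀| / V₀)

/-- Points of the rhombus above `x`. -/
lemma section_mem {w z₀ z₁ V₀ V₁ x t : ℝ} (hw : 0 < w) (hV : V₀ ^ 2 + V₁ ^ 2 = 1)
    (hV0 : 0 < V₀) (hx : |x - z₀| ≤ V₀ / 2) (ht : |t| ≤ hh w z₀ V₀ x) :
    ∃ α β : ℝ, |α| + |β| / w ≤ 1 / 2 ∧ z₀ + α * V₀ - β * V₁ = x ∧
      z₁ + α * V₁ + β * V₀ = (z₁ - V₁ / V₀ * z₀) + V₁ / V₀ * x + t := by
  have hV01 : V₀ ≤ 1 := by nlinarith [sq_nonneg V₁]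
  have hV11 : |V₁| ≤ 1 := by
    rw [← sq_le_one_iff_abs_le_one]
    nlinarith
  refine ⟨(x - z₀ + t * V₀ * V₁) / V₀, t * V₀, ?_, ?_, ?_⟩
  · have h1 : |(x - z₀ + t * V₀ * V₁) / V₀| ≤ |x - z₀| / V₀ + |t| := by
      rw [abs_div, abs_of_pos hV0, div_le_iff₀ hV0]
      refine (abs_add_le _ _).trans ?_
      rw [add_mul, div_mul_cancel₀ _ hV0.ne', abs_mul, abs_mul, abs_of_pos hV0]
      have : |t| * V₀ * |V₁| ≤ |t| * V₀ * 1 := mul_le_mul_of_nonneg_left hV11 (by positivity)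
      linarith
    have h2 : |t * V₀| / w ≤ |t| / w := by
      rw [abs_mul, abs_of_pos hV0]
      exact div_le_div_of_nonneg_right (mul_le_of_le_one_right (abs_nonneg _) hV01) hw.le
    have h3 : |t| + |t| / w = |t| * ((1 + w) / w) := by
      field_simp
      ring
    have h4 : |t| * ((1 + w) / w) ≤ hh w z₀ V₀ x * ((1 + w) / w) :=
      mul_le_mul_of_nonneg_right ht (by positivity)
    have h5 : hh w z₀ V₀ x * ((1 + w) / w) = (1 - w ^ 2) * (1 / 2 - |x - z₀| / V₀) := by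
      unfold hh
      field_simp
      ring
    have h6 : 0 ≤ 1 / 2 - |x - z₀| / V₀ := by
      have : |x - z₀| / V₀ ≤ 1 / 2 := by
        rw [div_le_iff₀ hV0]
        linarith
      linarith
    have h7 : (1 - w ^ 2) * (1 / 2 - |x - z₀| / V₀) ≤ 1 * (1 / 2 - |x - z₀| / V₀) :=
      mul_le_mul_of_nonneg_right (by nlinarith) h6
    linarith
  · field_simp
    ring
  · field_simp
    linear_combination (t * V₀) * hV

lemma hh_nonneg {w z₀ V₀ x : ℝ} (hw : 0 < w) (hw1 : w ≤ 1) (hV0 : 0 < V₀)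
    (hx : |x - z₀| ≤ V₀ / 2) : 0 ≤ hh w z₀ V₀ x := by
  unfold hh
  have : 2 * |x - z₀| / V₀ ≤ 1 := by
    rw [div_le_one hV0]
    linarith
  have h1 : 0 ≤ 1 - 2 * |x - z₀| / V₀ := by linarith
  have h2 : 0 ≤ 1 - w := by linarith
  positivity

/-- Disjoint rhombi: the vertical distance of the axes. -/
lemma gap {w z₀ z₁ V₀ V₁ z₀' z₁' V₀' V₁' : ℝ} (hw : 0 < w) (hw1 : w ≤ 1)
    (hV : V₀ ^ 2 + V₁ ^ 2 = 1) (hV' : V₀' ^ 2 + V₁' ^ 2 = 1) (hV0 : 0 < V₀) (hV0' : 0 < V₀')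
    (h0 : |0 - z₀| ≤ V₀ / 2) (h0' : |0 - z₀'| ≤ V₀' / 2)
    (hd : ∀ α β α' β' : ℝ, |α| + |β| / w ≤ 1 / 2 → |α'| + |β'| / w ≤ 1 / 2 →
      z₀ + α * V₀ - β * V₁ = z₀' + α' * V₀' - β' * V₁' →
      z₁ + α * V₁ + β * V₀ = z₁' + α' * V₁' + β' * V₀' → False)
    (hp : z₁ - V₁ / V₀ * z₀ < z₁' - V₁' / V₀' * z₀') {x : ℝ} (hx : |x - z₀| ≤ V₀ / 2)
    (hx' : |x - z₀'| ≤ V₀' / 2) :
    hh w z₀ V₀ x + hh w z₀' V₀' x ≤ ((z₁' - V₁' / V₀' * z₀') + V₁' / V₀' * x) -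
      ((z₁ - V₁ / V₀ * z₀) + V₁ / V₀ * x) := by
  set p := z₁ - V₁ / V₀ * z₀ with hpd
  set p' := z₁' - V₁' / V₀' * z₀' with hpd'
  set m := V₁ / V₀ with hm
  set m' := V₁' / V₀' with hm'
  -- no common points
  have hno : ∀ y t t' : ℝ, |y - z₀| ≤ V₀ / 2 → |y - z₀'| ≤ V₀' / 2 → |t| ≤ hh w z₀ V₀ y →
      |t'| ≤ hh w z₀' V₀' y → p + m * y + t = p' + m' * y + t' → False := by
    intro y t t' hy hy' ht ht' he
    obtain ⟨α, β, a1, a2, a3⟩ := section_mem (z₁ := z₁) hw hV hV0 hy ht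
    obtain ⟨α', β', b1, b2, b3⟩ := section_mem (z₁ := z₁') hw hV' hV0' hy' ht'
    exact hd α β α' β' a1 b1 (by rw [a2, b2]) (by rw [a3, b3]; exact he)
  have hpos : 0 < (p' + m' * x) - (p + m * x) := by
    by_contra hcon
    push Not at hcon
    -- a zero between `0` and `x`
    set g0 := p' - p with hg0
    have hg0p : 0 < g0 := by linarith
    set s : ℝ := g0 / (g0 - ((p' + m' * x) - (p + m * x))) with hs
    have hden : 0 < g0 - ((p' + m' * x) - (p + m * x)) := by linarith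
    have hs0 : 0 ≤ s := by positivity
    have hs1 : s ≤ 1 := (div_le_one hden).2 (by linarith)
    have hsx : ∀ z V : ℝ, |0 - z| ≤ V / 2 → |x - z| ≤ V / 2 → |s * x - z| ≤ V / 2 := by
      intro z V h1 h2
      have e : s * x - z = (1 - s) * (0 - z) + s * (x - z) := by ring
      rw [e]
      refine (abs_add_le _ _).trans ?_
      rw [abs_mul, abs_mul, abs_of_nonneg hs0, abs_of_nonneg (by linarith : 0 ≤ 1 - s)]
      nlinarith
    have k1 := hsx z₀ V₀ h0 hx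
    have k2 := hsx z₀' V₀' h0' hx'
    refine hno (s * x) 0 0 k1 k2 ?_ ?_ ?_
    · rw [abs_zero]
      exact hh_nonneg hw hw1 hV0 k1
    · rw [abs_zero]
      exact hh_nonneg hw hw1 hV0' k2
    · have e1 : s * (g0 - ((p' + m' * x) - (p + m * x))) = g0 := by
        rw [hs]
        exact div_mul_cancel₀ _ hden.ne'
      have e2 : g0 - ((p' + m' * x) - (p + m * x)) = -((m' - m) * x) := by
        rw [hg0]
        ring
      rw [e2] at e1
      rw [hg0] at e1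
      linarith
  by_contra hcon
  push Not at hcon
  have n1 := hh_nonneg hw hw1 hV0 hx
  have n2 := hh_nonneg hw hw1 hV0' hx'
  set g := (p' + m' * x) - (p + m * x) with hg
  refine hno x (min g (hh w z₀ V₀ x)) (min g (hh w z₀ V₀ x) - g) hx hx' ?_ ?_ ?_
  · rw [abs_of_nonneg (le_min hpos.le n1)]
    exact min_le_right _ _
  · rw [abs_of_nonpos (by linarith [min_le_left g (hh w z₀ V₀ x)])]
    rcases le_total g (hh w z₀ V₀ x) with h | h
    · rw [min_eq_left h]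
      linarith
    · rw [min_eq_right h]
      linarith
  · rw [hg]
    ring

/-- The data of one rhombus. -/
lemma data {ε w z₀ z₁ V₀ V₁ : ℝ} (hε : 0 < ε) (hε1 : ε ≤ 1 / 100)
    (h : RhIn (1 + ε) w z₀ z₁ V₀ V₁) (hV01 : |V₁| ≤ V₀) :
    1 - 9 / 4 * ε ^ 2 ≤ V₀ ∧ V₀ ≤ 1 ∧ |V₁ / V₀| ≤ 2 * ε ∧ |z₀| ≤ 3 / 5 * ε ∧
      |z₁ - V₁ / V₀ * z₀| ≤ ε ∧
      z₀ + V₀ / 2 ≤ rb ((1 + ε) / 2) (z₁ - V₁ / V₀ * z₀) (V₁ / V₀) ∧
      -(z₀ - V₀ / 2) ≤ rb ((1 + ε) / 2) (z₁ - V₁ / V₀ * z₀) (-(V₁ / V₀)) := by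
  have hV00 : 0 ≤ V₀ := (abs_nonneg _).trans hV01
  have hV01' : |V₁| ≤ |V₀| := by rwa [abs_of_nonneg hV00]
  obtain ⟨b1, b2, b3, b4, b5⟩ := SectionAux.basic hε (by linarith) h hV01'
  rw [abs_of_nonneg hV00] at b2 b3
  have hε2 : ε ^ 2 ≤ ε * (1 / 100) := by nlinarith
  have hV0 : 0 < V₀ := by nlinarith
  have hm : |V₁ / V₀| ≤ 2 * ε := by
    rw [abs_div, abs_of_pos hV0, div_le_iff₀ hV0]
    nlinarith
  have hm1 : |V₁ / V₀| < 1 := by linarith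
  have hmV : V₁ / V₀ * V₀ = V₁ := by field_simp
  have hz0 : |z₀| ≤ 3 / 5 * ε := by linarith
  have hp : |z₁ - V₁ / V₀ * z₀| ≤ ε := by
    have h1 := abs_sub z₁ (V₁ / V₀ * z₀)
    rw [abs_mul] at h1
    have h2 : |V₁ / V₀| * |z₀| ≤ 2 * ε * (3 / 5 * ε) :=
      mul_le_mul hm hz0 (abs_nonneg _) (by positivity)
    nlinarith
  obtain ⟨-, hin⟩ := h
  have e1 := hin (1 / 2) 0 (by norm_num)
  have e2 := hin (-(1 / 2)) 0 (by norm_num)
  have y1 : (z₁ - V₁ / V₀ * z₀) + V₁ / V₀ * (z₀ + V₀ / 2) = z₁ + 1 / 2 * V₁ + 0 * V₀ := by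
    linear_combination (1 / 2) * hmV
  have y2 : (z₁ - V₁ / V₀ * z₀) + V₁ / V₀ * (z₀ - V₀ / 2) = z₁ + -(1 / 2) * V₁ + 0 * V₀ := by
    linear_combination (-(1 / 2)) * hmV
  have x1 : z₀ + V₀ / 2 = z₀ + 1 / 2 * V₀ - 0 * V₁ := by ring
  have x2 : z₀ - V₀ / 2 = z₀ + -(1 / 2) * V₀ - 0 * V₁ := by ring
  refine ⟨b2, b3, hm, hz0, hp, ?_, ?_⟩
  · rw [le_rb hm1, y1, x1]
    have h1 := abs_le.1 (le_refl |z₀ + 1 / 2 * V₀ - 0 * V₁|)
    have h2 := abs_le.1 (le_refl |z₁ + 1 / 2 * V₁ + 0 * V₀|)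
    exact ⟨by linarith, by linarith⟩
  · rw [le_rb (by rwa [abs_neg])]
    have e : -(V₁ / V₀) * -(z₀ - V₀ / 2) = V₁ / V₀ * (z₀ - V₀ / 2) := by ring
    rw [e, y2, x2]
    have h1 := abs_le.1 (le_refl |z₀ + -(1 / 2) * V₀ - 0 * V₁|)
    have h2 := abs_le.1 (le_refl |z₁ + -(1 / 2) * V₁ + 0 * V₀|)
    exact ⟨by linarith, by linarith⟩

/-- Lower bound of the difference of the areas by three pieces. -/
lemma diff_low {c p m p' m' X₁ X₂ K : ℝ} (hK : 0 ≤ K) (hX0 : -(c / 2) ≤ X₁) (hX : X₁ ≤ X₂)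
    (hX2 : X₂ ≤ c / 2) (hm : |m| < 1) (hm' : |m'| < 1) (a1 : -X₁ ≤ rb (c / 2) p (-m))
    (a2 : -X₁ ≤ rb (c / 2) p' (-m')) (b1 : X₂ ≤ rb (c / 2) p m) (b2 : X₂ ≤ rb (c / 2) p' m')
    (hL : ∀ x, -(c / 2) ≤ x → x ≤ X₁ → p + m * x - K ≤ p' + m' * x)
    (hR : ∀ x, X₂ ≤ x → x ≤ c / 2 → p + m * x - K ≤ p' + m' * x) :
    (X₂ - X₁) * ((p' - p) + (m' - m) * ((X₁ + X₂) / 2)) - K * (X₁ + c / 2) - K * (c / 2 - X₂) ≤
      Psi c p' m' - Psi c p m := by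
  have c1 := AuxPsi.clp_cont c p m
  have c2 := AuxPsi.clp_cont c p' m'
  have e0 : Psi c p' m' - Psi c p m =
      ∫ x in (-(c / 2))..(c / 2), (clp c x (p' + m' * x) - clp c x (p + m * x)) := by
    unfold Psi
    rw [intervalIntegral.integral_sub (c2.intervalIntegrable _ _) (c1.intervalIntegrable _ _)]
  have cF : Continuous fun x => clp c x (p' + m' * x) - clp c x (p + m * x) := c2.sub c1
  have hI : ∀ u v : ℝ, IntervalIntegrable
      (fun x => clp c x (p' + m' * x) - clp c x (p + m * x)) volume u v :=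
    fun u v => cF.intervalIntegrable u v
  rw [e0, ← intervalIntegral.integral_add_adjacent_intervals (hI (-(c / 2)) X₂) (hI X₂ (c / 2)),
    ← intervalIntegral.integral_add_adjacent_intervals (hI (-(c / 2)) X₁) (hI X₁ X₂)]
  have i1 : -K * (X₁ - -(c / 2)) ≤
      ∫ x in (-(c / 2))..X₁, (clp c x (p' + m' * x) - clp c x (p + m * x)) := by
    have h := intervalIntegral.integral_mono_on (f := fun _ => -K) hX0
      (continuous_const.intervalIntegrable _ _) (hI _ _)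
      (fun x hx => clp_diff hK (hL x hx.1 hx.2))
    rw [intervalIntegral.integral_const, smul_eq_mul] at h
    linarith
  have i3 : -K * (c / 2 - X₂) ≤
      ∫ x in X₂..(c / 2), (clp c x (p' + m' * x) - clp c x (p + m * x)) := by
    have h := intervalIntegral.integral_mono_on (f := fun _ => -K) hX2
      (continuous_const.intervalIntegrable _ _) (hI _ _)
      (fun x hx => clp_diff hK (hR x hx.1 hx.2))
    rw [intervalIntegral.integral_const, smul_eq_mul] at h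
    linarith
  have i2 : ∫ x in X₁..X₂, (clp c x (p' + m' * x) - clp c x (p + m * x)) =
      (X₂ - X₁) * ((p' - p) + (m' - m) * ((X₁ + X₂) / 2)) := by
    have h : ∫ x in X₁..X₂, (clp c x (p' + m' * x) - clp c x (p + m * x)) =
        ∫ x in X₁..X₂, ((p' - p) + (m' - m) * x) := by
      refine intervalIntegral.integral_congr fun x hx => ?_
      rw [uIcc_of_le hX] at hx
      have d1 := clp_eq (c := c) (p := p) hm (hx.2.trans b1) (by linarith [hx.1])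
      have d2 := clp_eq (c := c) (p := p') hm' (hx.2.trans b2) (by linarith [hx.1])
      change clp c x (p' + m' * x) - clp c x (p + m * x) = (p' - p) + (m' - m) * x
      rw [d1, d2]
      ring
    rw [h, AuxPsi.int_lin]
    ring
  rw [i2]
  linarith

/-- The final estimate. -/
lemma final {ε w L v g : ℝ} (hε : 0 < ε) (hε1 : ε ≤ 1 / 1000) (hw : 0 < w) (hw1 : w ≤ 1 / 1000)
    (hL1 : 1 - 2 * ε ≤ L) (hL2 : L ≤ 1 + 2 * ε) (hv : 1 - 9 / 4 * ε ^ 2 ≤ v) (hv1 : v ≤ 1)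
    (hg : w * (1 - w) * (2 - (L + 80 * w) / v) ≤ g) :
    w * (1 - 100 * ε ^ 2 - 300 * w) ≤ g * (L - 12 * ε ^ 2) := by
  have hε2 : ε ^ 2 ≤ 1 / 1000000 := by nlinarith
  have hε20 : 0 ≤ ε ^ 2 := sq_nonneg _
  have hv0 : 0 < v := by linarith
  have h1 : (L + 80 * w) / v ≤ L + 6 * ε ^ 2 + 160 * w := by
    rw [div_le_iff₀ hv0]
    have h2 : (L + 6 * ε ^ 2 + 160 * w) * (1 - 9 / 4 * ε ^ 2) ≤
        (L + 6 * ε ^ 2 + 160 * w) * v := mul_le_mul_of_nonneg_left hv (by nlinarith)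
    nlinarith
  have h2 : 0 ≤ L - 12 * ε ^ 2 := by nlinarith
  have h3 : 0 ≤ w * (1 - w) := by nlinarith
  have h4 : w * (1 - w) * (2 - (L + 6 * ε ^ 2 + 160 * w)) ≤ g :=
    le_trans (mul_le_mul_of_nonneg_left (by linarith) h3) hg
  have h5 : w * (1 - w) * (2 - (L + 6 * ε ^ 2 + 160 * w)) * (L - 12 * ε ^ 2) ≤
      g * (L - 12 * ε ^ 2) := mul_le_mul_of_nonneg_right h4 h2
  refine le_trans ?_ h5
  have e : w * (1 - w) * (2 - (L + 6 * ε ^ 2 + 160 * w)) * (L - 12 * ε ^ 2) =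
      w * ((1 - w) * ((2 - (L + 6 * ε ^ 2 + 160 * w)) * (L - 12 * ε ^ 2))) := by ring
  rw [e]
  refine mul_le_mul_of_nonneg_left ?_ hw.le
  have h6 : 1 - 4 * ε ^ 2 ≤ (2 - L) * L := by nlinarith
  have h7 : 1 - 50 * ε ^ 2 - 170 * w ≤
      (2 - (L + 6 * ε ^ 2 + 160 * w)) * (L - 12 * ε ^ 2) := by
    have e2 : (2 - (L + 6 * ε ^ 2 + 160 * w)) * (L - 12 * ε ^ 2) =
        (2 - L) * L - 12 * ε ^ 2 * (2 - L) - (6 * ε ^ 2 + 160 * w) * (L - 12 * ε ^ 2) := by ring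
    rw [e2]
    have h8 : 12 * ε ^ 2 * (2 - L) ≤ 12 * ε ^ 2 * 2 :=
      mul_le_mul_of_nonneg_left (by linarith) (by positivity)
    have h9 : (6 * ε ^ 2 + 160 * w) * (L - 12 * ε ^ 2) ≤ (6 * ε ^ 2 + 160 * w) * (101 / 100) :=
      mul_le_mul_of_nonneg_left (by linarith) (by positivity)
    linarith
  have h10 : (1 - w) * (1 - 50 * ε ^ 2 - 170 * w) ≤
      (1 - w) * ((2 - (L + 6 * ε ^ 2 + 160 * w)) * (L - 12 * ε ^ 2)) :=
    mul_le_mul_of_nonneg_left h7 (by linarith)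
  nlinarith

/-- The half height at a point near the centre. -/
lemma hh_low {ε w z₀ V₀ X₁ X₂ : ℝ} (hε : 0 < ε) (hε1 : ε ≤ 1 / 1000) (hw : 0 < w)
    (hw1 : w ≤ 1 / 1000) (hV : 1 - 9 / 4 * ε ^ 2 ≤ V₀)
    (h1 : z₀ + V₀ / 2 ≤ X₂ + 40 * w) (h2 : -(z₀ - V₀ / 2) ≤ -X₁ + 40 * w) :
    w / 2 * (1 - w) * (2 - (X₂ - X₁ + 80 * w) / (1 - 9 / 4 * ε ^ 2)) ≤
      hh w z₀ V₀ ((X₁ + X₂) / 2) := by
  have hε2 : ε ^ 2 ≤ 1 / 1000000 := by nlinarith
  have hv0 : 0 < 1 - 9 / 4 * ε ^ 2 := by linarith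
  have hV0 : 0 < V₀ := by linarith
  have h3 : |(X₁ + X₂) / 2 - z₀| ≤ (X₂ - X₁) / 2 + 40 * w - V₀ / 2 := by
    rw [abs_le]
    constructor <;> linarith
  unfold hh
  refine mul_le_mul_of_nonneg_left ?_ (by nlinarith)
  have h4 : 2 * |(X₁ + X₂) / 2 - z₀| / V₀ ≤ (X₂ - X₁ + 80 * w) / V₀ - 1 := by
    rw [div_le_iff₀ hV0, sub_mul, div_mul_cancel₀ _ hV0.ne']
    linarith
  have h5 : (X₂ - X₁ + 80 * w) / V₀ ≤ (X₂ - X₁ + 80 * w) / (1 - 9 / 4 * ε ^ 2) :=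
    div_le_div_of_nonneg_left (by linarith) hv0 hV
  linarith

/-- The slope of the difference. -/
lemma slope_le {B μ g Y₁ Y₂ : ℝ} (h2 : 1 / 4 ≤ Y₂ - μ) (h1 : 1 / 4 ≤ μ - Y₁) (hg : 0 ≤ g)
    (e1 : 0 ≤ g + B * (Y₂ - μ)) (e2 : 0 ≤ g + B * (Y₁ - μ)) : |B| ≤ 4 * g := by
  rw [abs_le]
  constructor
  · by_contra hcon
    push Not at hcon
    nlinarith
  · by_contra hcon
    push Not at hcon
    nlinarith

/-- The lower bound of the difference of the areas. -/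
lemma lowD {ε p m p' m' X₁ X₂ Y₁ Y₂ : ℝ} (hε : 0 < ε) (hε1 : ε ≤ 1 / 1000) (hm : |m| < 1)
    (hm' : |m'| < 1) (a1 : Y₂ ≤ X₂) (a2 : X₁ ≤ Y₁) (a3 : (1 + ε) / 2 - 6 / 5 * ε ≤ Y₂)
    (a4 : Y₁ ≤ -((1 + ε) / 2 - 6 / 5 * ε)) (a5 : X₂ ≤ (1 + ε) / 2) (a6 : -((1 + ε) / 2) ≤ X₁)
    (b1 : -X₁ ≤ rb ((1 + ε) / 2) p (-m)) (b2 : -X₁ ≤ rb ((1 + ε) / 2) p' (-m'))
    (b3 : X₂ ≤ rb ((1 + ε) / 2) p m) (b4 : X₂ ≤ rb ((1 + ε) / 2) p' m')
    (G1 : 0 ≤ (p' + m' * Y₁) - (p + m * Y₁)) (G2 : 0 ≤ (p' + m' * Y₂) - (p + m * Y₂))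
    (hg : 0 ≤ (p' - p) + (m' - m) * ((X₁ + X₂) / 2)) :
    |m' - m| ≤ 4 * ((p' - p) + (m' - m) * ((X₁ + X₂) / 2)) ∧
    ((p' - p) + (m' - m) * ((X₁ + X₂) / 2)) * ((X₂ - X₁) - 12 * ε ^ 2) ≤
      Psi (1 + ε) p' m' - Psi (1 + ε) p m := by
  have hB4 : |m' - m| ≤ 4 * ((p' - p) + (m' - m) * ((X₁ + X₂) / 2)) := by
    refine slope_le (μ := (X₁ + X₂) / 2) (Y₁ := Y₁) (Y₂ := Y₂) (by linarith) (by linarith) hg
      ?_ ?_
    · linarith
    · linarith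
  refine ⟨hB4, ?_⟩
  have hBa : 0 ≤ |m' - m| := abs_nonneg _
  have hBl := abs_le.1 (le_refl |m' - m|)
  have hK : 0 ≤ |m' - m| * (6 / 5 * ε) := by positivity
  have hD := diff_low (c := 1 + ε) (p := p) (m := m) (p' := p') (m' := m') (X₁ := X₁) (X₂ := X₂)
    hK a6 (by linarith) a5 hm hm' b1 b2 b3 b4
    (by
      intro x hx1 hx2
      have e1 : -(|m' - m| * (6 / 5 * ε)) ≤ (m' - m) * (x - Y₁) := by
        have e2 : 0 ≤ Y₁ - x := by linarith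
        have e3 : Y₁ - x ≤ 6 / 5 * ε := by linarith
        have e4 : (m' - m) * (Y₁ - x) ≤ |m' - m| * (Y₁ - x) :=
          mul_le_mul_of_nonneg_right hBl.2 e2
        have e5 : |m' - m| * (Y₁ - x) ≤ |m' - m| * (6 / 5 * ε) :=
          mul_le_mul_of_nonneg_left e3 hBa
        linarith
      linarith)
    (by
      intro x hx1 hx2
      have e1 : -(|m' - m| * (6 / 5 * ε)) ≤ (m' - m) * (x - Y₂) := by
        have e2 : 0 ≤ x - Y₂ := by linarith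
        have e3 : x - Y₂ ≤ 6 / 5 * ε := by linarith
        have e4 : -(|m' - m| * (x - Y₂)) ≤ (m' - m) * (x - Y₂) := by
          rw [← neg_mul]
          exact mul_le_mul_of_nonneg_right hBl.1 e2
        have e5 : |m' - m| * (x - Y₂) ≤ |m' - m| * (6 / 5 * ε) :=
          mul_le_mul_of_nonneg_left e3 hBa
        linarith
      linarith)
  generalize (p' - p) + (m' - m) * ((X₁ + X₂) / 2) = g at *
  have e1 : |m' - m| * (6 / 5 * ε) * (X₁ + (1 + ε) / 2) ≤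
      |m' - m| * (6 / 5 * ε) * (6 / 5 * ε) := mul_le_mul_of_nonneg_left (by linarith) hK
  have e2 : |m' - m| * (6 / 5 * ε) * ((1 + ε) / 2 - X₂) ≤
      |m' - m| * (6 / 5 * ε) * (6 / 5 * ε) := mul_le_mul_of_nonneg_left (by linarith) hK
  have e3 : |m' - m| * (6 / 5 * ε) * (6 / 5 * ε) ≤ 4 * g * (3 / 2 * ε ^ 2) := by
    have : |m' - m| * (6 / 5 * ε) * (6 / 5 * ε) = |m' - m| * (36 / 25 * ε ^ 2) := by ring
    rw [this]
    exact mul_le_mul hB4 (by nlinarith [sq_nonneg ε]) (by positivity) (by positivity)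
  linarith

/-- The ends are close to each other. -/
lemma min_close {b b' w : ℝ} (h : |b - b'| ≤ 40 * w) :
    b ≤ min b b' + 40 * w ∧ b' ≤ min b b' + 40 * w := by
  have h' := abs_le.1 h
  rcases le_total b b' with t | t
  · rw [min_eq_left t]
    exact ⟨by linarith, by linarith⟩
  · rw [min_eq_right t]
    exact ⟨by linarith, by linarith⟩

/-- The case of close lines. -/
lemma closeCase {ε w z₀ V₀ z₀' V₀' p m p' m' g : ℝ} (hε : 0 < ε) (hε1 : ε ≤ 1 / 1000)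
    (hw : 0 < w) (hw1 : w ≤ 1 / 1000) (v1 : 1 - 9 / 4 * ε ^ 2 ≤ V₀)
    (v1' : 1 - 9 / 4 * ε ^ 2 ≤ V₀') (hm : |m| ≤ 2 * ε) (hm' : |m'| ≤ 2 * ε) (hp : |p| ≤ ε)
    (hp' : |p'| ≤ ε) (hpp : |p' - p| ≤ 3 * w) (hmm : |m' - m| ≤ 8 * w)
    (r1 : z₀ + V₀ / 2 ≤ rb ((1 + ε) / 2) p m) (l1 : -(z₀ - V₀ / 2) ≤ rb ((1 + ε) / 2) p (-m))
    (r1' : z₀' + V₀' / 2 ≤ rb ((1 + ε) / 2) p' m')
    (l1' : -(z₀' - V₀' / 2) ≤ rb ((1 + ε) / 2) p' (-m'))
    (hL1 : 1 - 2 * ε ≤ min (rb ((1 + ε) / 2) p m) (rb ((1 + ε) / 2) p' m') -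
      -min (rb ((1 + ε) / 2) p (-m)) (rb ((1 + ε) / 2) p' (-m')))
    (hL2 : min (rb ((1 + ε) / 2) p m) (rb ((1 + ε) / 2) p' m') -
      -min (rb ((1 + ε) / 2) p (-m)) (rb ((1 + ε) / 2) p' (-m')) ≤ 1 + 2 * ε)
    (hg : hh w z₀ V₀ ((-min (rb ((1 + ε) / 2) p (-m)) (rb ((1 + ε) / 2) p' (-m')) +
        min (rb ((1 + ε) / 2) p m) (rb ((1 + ε) / 2) p' m')) / 2) +
      hh w z₀' V₀' ((-min (rb ((1 + ε) / 2) p (-m)) (rb ((1 + ε) / 2) p' (-m')) +
        min (rb ((1 + ε) / 2) p m) (rb ((1 + ε) / 2) p' m')) / 2) ≤ g) :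
    w * (1 - 100 * ε ^ 2 - 300 * w) ≤
      g * ((min (rb ((1 + ε) / 2) p m) (rb ((1 + ε) / 2) p' m') -
        -min (rb ((1 + ε) / 2) p (-m)) (rb ((1 + ε) / 2) p' (-m'))) - 12 * ε ^ 2) := by
  have q1 := rb_lip (R := (1 + ε) / 2) (p := p) (m := m) (p' := p') (m' := m') (by linarith)
    (by linarith) (by linarith) (by linarith) (by linarith) (by linarith)
  have q2 := rb_lip (R := (1 + ε) / 2) (p := p) (m := -m) (p' := p') (m' := -m') (by linarith)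
    (by linarith) (by rw [abs_neg]; linarith) (by rw [abs_neg]; linarith) (by linarith)
    (by linarith)
  have e1 : |-m' - -m| = |m' - m| := by
    rw [← abs_neg]
    congr 1
    ring
  rw [e1] at q2
  obtain ⟨s1, s2⟩ := min_close (w := w) (q1.trans (by linarith))
  obtain ⟨s3, s4⟩ := min_close (w := w) (q2.trans (by linarith))
  have t1 := hh_low (X₁ := -min (rb ((1 + ε) / 2) p (-m)) (rb ((1 + ε) / 2) p' (-m')))
    (X₂ := min (rb ((1 + ε) / 2) p m) (rb ((1 + ε) / 2) p' m')) hε hε1 hw hw1 v1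
    (r1.trans s1) (by rw [neg_neg]; exact l1.trans s3)
  have t2 := hh_low (X₁ := -min (rb ((1 + ε) / 2) p (-m)) (rb ((1 + ε) / 2) p' (-m')))
    (X₂ := min (rb ((1 + ε) / 2) p m) (rb ((1 + ε) / 2) p' m')) hε hε1 hw hw1 v1'
    (r1'.trans s2) (by rw [neg_neg]; exact l1'.trans s4)
  refine final hε hε1 hw hw1 hL1 hL2 (le_refl (1 - 9 / 4 * ε ^ 2)) (by nlinarith [sq_nonneg ε]) ?_
  refine le_trans (le_of_eq ?_) ((add_le_add t1 t2).trans hg)
  ring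

end AuxPair

open AuxPair in
/-- (Pair) -/
theorem pr_Pair : S_Pair := by
  refine ⟨300, 1 / 1000, by norm_num, by norm_num, ?_⟩
  intro ε w z₀ z₁ V₀ V₁ z₀' z₁' V₀' V₁' hε hε1 hw hw1 h h' hV hV' hd hp
  obtain ⟨v1, v2, m1, k1, p1, r1, l1⟩ := data hε (by linarith) h hV
  obtain ⟨v1', v2', m1', k1', p1', r1', l1'⟩ := data hε (by linarith) h' hV'
  have hε2 : ε ^ 2 ≤ ε * (1 / 1000) := by nlinarith
  have hε20 : 0 ≤ ε ^ 2 := sq_nonneg _
  have hV0 : 0 < V₀ := by linarith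
  have hV0' : 0 < V₀' := by linarith
  have hw1' : w ≤ 1 := by linarith
  have k2 := abs_le.1 k1
  have k2' := abs_le.1 k1'
  have hgap : ∀ x : ℝ, |x - z₀| ≤ V₀ / 2 → |x - z₀'| ≤ V₀' / 2 →
      hh w z₀ V₀ x + hh w z₀' V₀' x ≤ ((z₁' - V₁' / V₀' * z₀') + V₁' / V₀' * x) -
        ((z₁ - V₁ / V₀ * z₀) + V₁ / V₀ * x) := fun x hx hx' =>
    gap hw hw1' h.1 h'.1 hV0 hV0' (by rw [abs_le]; constructor <;> linarith)
      (by rw [abs_le]; constructor <;> linarith) hd hp hx hx'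
  clear hd h h'
  generalize z₁ - V₁ / V₀ * z₀ = p at *
  generalize z₁' - V₁' / V₀' * z₀' = p' at *
  generalize V₁ / V₀ = m at *
  generalize V₁' / V₀' = m' at *
  have hm1 : |m| < 1 := by linarith
  have hm1' : |m'| < 1 := by linarith
  have hmn : |-m| < 1 := by rwa [abs_neg]
  set X₂ := min (rb ((1 + ε) / 2) p m) (rb ((1 + ε) / 2) p' m') with hX₂
  set X₁ := -min (rb ((1 + ε) / 2) p (-m)) (rb ((1 + ε) / 2) p' (-m')) with hX₁
  have b1 : -X₁ ≤ rb ((1 + ε) / 2) p (-m) := by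
    rw [hX₁, neg_neg]
    exact min_le_left _ _
  have b2 : -X₁ ≤ rb ((1 + ε) / 2) p' (-m') := by
    rw [hX₁, neg_neg]
    exact min_le_right _ _
  have b3 : X₂ ≤ rb ((1 + ε) / 2) p m := min_le_left _ _
  have b4 : X₂ ≤ rb ((1 + ε) / 2) p' m' := min_le_right _ _
  set Y₂ := min (z₀ + V₀ / 2) (z₀' + V₀' / 2) with hY₂
  set Y₁ := max (z₀ - V₀ / 2) (z₀' - V₀' / 2) with hY₁
  have a1 : Y₂ ≤ X₂ := min_le_min r1 r1'
  have a2 : X₁ ≤ Y₁ := by
    rw [hX₁, neg_le, hY₁]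
    refine le_min ?_ ?_
    · exact (neg_le_neg (le_max_left _ _)).trans l1
    · exact (neg_le_neg (le_max_right _ _)).trans l1'
  have a3 : (1 + ε) / 2 - 6 / 5 * ε ≤ Y₂ := le_min (by linarith) (by linarith)
  have a4 : Y₁ ≤ -((1 + ε) / 2 - 6 / 5 * ε) := max_le (by linarith) (by linarith)
  have a5 : X₂ ≤ (1 + ε) / 2 := (min_le_left _ _).trans (rb_le hm1)
  have a6 : -((1 + ε) / 2) ≤ X₁ := by
    rw [hX₁, neg_le_neg_iff]
    exact (min_le_left _ _).trans (rb_le hmn)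
  have y1 : Y₂ ≤ z₀ + V₀ / 2 := min_le_left _ _
  have y2 : Y₂ ≤ z₀' + V₀' / 2 := min_le_right _ _
  have y3 : z₀ - V₀ / 2 ≤ Y₁ := le_max_left _ _
  have y4 : z₀' - V₀' / 2 ≤ Y₁ := le_max_right _ _
  have hgap2 : ∀ x : ℝ, Y₁ ≤ x → x ≤ Y₂ → hh w z₀ V₀ x + hh w z₀' V₀' x ≤
      (p' + m' * x) - (p + m * x) ∧ 0 ≤ (p' + m' * x) - (p + m * x) := by
    intro x h1 h2
    have c1 : |x - z₀| ≤ V₀ / 2 := by
      rw [abs_le]
      constructor <;> linarith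
    have c2 : |x - z₀'| ≤ V₀' / 2 := by
      rw [abs_le]
      constructor <;> linarith
    have c3 := hgap x c1 c2
    have c4 := hh_nonneg hw hw1' hV0 c1
    have c5 := hh_nonneg hw hw1' hV0' c2
    exact ⟨c3, by linarith⟩
  have G2 := (hgap2 Y₂ (by linarith) le_rfl).2
  have G1 := (hgap2 Y₁ le_rfl (by linarith)).2
  have Gμ := hgap2 ((X₁ + X₂) / 2) (by linarith) (by linarith)
  have e0 : (p' + m' * ((X₁ + X₂) / 2)) - (p + m * ((X₁ + X₂) / 2)) =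
      (p' - p) + (m' - m) * ((X₁ + X₂) / 2) := by ring
  rw [e0] at Gμ
  obtain ⟨hB4, hD⟩ := lowD hε hε1 hm1 hm1' a1 a2 a3 a4 a5 a6 b1 b2 b3 b4 G1 G2 Gμ.2
  refine le_trans ?_ hD
  have hL1 : 1 - 2 * ε ≤ X₂ - X₁ := by linarith
  have hL2 : X₂ - X₁ ≤ 1 + 2 * ε := by linarith
  have μ1 : |(X₁ + X₂) / 2| ≤ 1 / 100 := by
    rw [abs_le]
    constructor <;> linarith
  clear hD a1 a2 a3 a4 a5 a6 b1 b2 b3 b4 G1 G2 y1 y2 y3 y4 hgap hgap2
  rcases le_total (2 * w) ((p' - p) + (m' - m) * ((X₁ + X₂) / 2)) with hcase | hcase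
  · have e1 : 2 * w * ((X₂ - X₁) - 12 * ε ^ 2) ≤
        ((p' - p) + (m' - m) * ((X₁ + X₂) / 2)) * ((X₂ - X₁) - 12 * ε ^ 2) :=
      mul_le_mul_of_nonneg_right hcase (by linarith)
    refine le_trans ?_ e1
    have e2 : w * (1 - 300 * ε ^ 2 - 300 * w) ≤ w * 1 :=
      mul_le_mul_of_nonneg_left (by linarith) hw.le
    have e3 : w * 1 ≤ w * (2 * ((X₂ - X₁) - 12 * ε ^ 2)) :=
      mul_le_mul_of_nonneg_left (by linarith) hw.le
    linarith
  · have hB8 : |m' - m| ≤ 8 * w := by linarith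
    have hpp : |p' - p| ≤ 3 * w := by
      have e2 : |(m' - m) * ((X₁ + X₂) / 2)| ≤ 8 * w * (1 / 100) := by
        rw [abs_mul]
        exact mul_le_mul hB8 μ1 (abs_nonneg _) (by positivity)
      have e3 := abs_le.1 e2
      rw [abs_le]
      constructor <;> linarith [Gμ.2]
    have t4 := closeCase hε hε1 hw hw1 v1 v1' m1 m1' p1 p1' hpp hB8 r1 l1 r1' l1' hL1 hL2 Gμ.1
    refine le_trans ?_ t4
    exact mul_le_mul_of_nonneg_left (by linarith) hw.le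

end Pool.Agent.Potatoes.TT
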