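import Pool.Agent.Work.MP_72041b_co.TT.Stmts

/-!
# MP_72041b_co, block TT, item PsiTop: a line which contains a unit segment in the square
-/

set_option autoImplicit false

namespace Pool.Agent.Potatoes.TT

open MeasureTheory Set

namespace AuxPsi

lemma clp_cont (c p m : ℝ) : Continuous fun x => clp c x (p + m * x) := by
  unfold clp
  fun_prop

lemma clp_neg {c x : ℝ} (hx : |x| ≤ c / 2) (y : ℝ) : clp c x (-y) = -clp c x y := by
  unfold clp
  have h : 0 ≤ c / 2 - |x| := by linarith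
  generalize c / 2 - |x| = r at h
  rcases le_total r y with h1 | h1
  · rw [min_eq_right (by linarith : -y ≤ r), max_eq_left (by linarith : -y ≤ -r),
      min_eq_left h1, max_eq_right (by linarith : -r ≤ r)]
  · rw [min_eq_right h1]
    rcases le_total (-r) y with h2 | h2
    · rw [min_eq_right (by linarith : -y ≤ r), max_eq_right (by linarith : -r ≤ -y),
        max_eq_right h2]
    · rw [min_eq_left (by linarith : r ≤ -y), max_eq_right (by linarith : -r ≤ r),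
        max_eq_left h2, neg_neg]

lemma clp_mono (c x : ℝ) {y y' : ℝ} (h : y ≤ y') : clp c x y ≤ clp c x y' := by
  unfold clp
  exact max_le_max le_rfl (min_le_min le_rfl h)

lemma Psi_neg {c : ℝ} (hc : 0 ≤ c) (p m : ℝ) : Psi c (-p) (-m) = -Psi c p m := by
  unfold Psi
  rw [← intervalIntegral.integral_neg]
  refine intervalIntegral.integral_congr fun x hx => ?_
  rw [uIcc_of_le (by linarith)] at hx
  have h : |x| ≤ c / 2 := abs_le.2 ⟨by linarith [hx.1], hx.2⟩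
  have e : -p + -m * x = -(p + m * x) := by ring
  change clp c x (-p + -m * x) = -clp c x (p + m * x)
  rw [e, clp_neg h]

lemma Psi_refl (c p m : ℝ) : Psi c p (-m) = Psi c p m := by
  unfold Psi
  have h := intervalIntegral.integral_comp_neg (a := -(c / 2)) (b := c / 2)
    (fun x => clp c x (p + m * x))
  rw [neg_neg] at h
  rw [← h]
  refine intervalIntegral.integral_congr fun x _ => ?_
  simp only [clp, abs_neg]
  congr 2
  ring

lemma Psi_mono {c : ℝ} (hc : 0 ≤ c) {p p' : ℝ} (h : p ≤ p') (m : ℝ) : Psi c p m ≤ Psi c p' m := by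
  unfold Psi
  refine intervalIntegral.integral_mono_on (by linarith)
    ((clp_cont c p m).intervalIntegrable _ _) ((clp_cont c p' m).intervalIntegrable _ _)
    fun x _ => clp_mono c x (by linarith)

lemma Psi_zero {c : ℝ} (hc : 0 ≤ c) (m : ℝ) : Psi c 0 m = 0 := by
  have h1 := Psi_neg hc 0 m
  rw [neg_zero, Psi_refl] at h1
  linarith

lemma int_lin (a b α β : ℝ) : ∫ x in a..b, (α + β * x) = α * (b - a) + β * (b ^ 2 - a ^ 2) / 2 := by
  have h1 : IntervalIntegrable (fun _ : ℝ => α) volume a b := continuous_const.intervalIntegrable _ _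
  have h2 : IntervalIntegrable (fun x : ℝ => β * x) volume a b :=
    (by fun_prop : Continuous fun x : ℝ => β * x).intervalIntegrable _ _
  rw [intervalIntegral.integral_add h1 h2,
    intervalIntegral.integral_const, intervalIntegral.integral_const_mul, integral_id, smul_eq_mul]
  ring

/-- An upper bound for the integral by three pieces. -/
lemma three {F : ℝ → ℝ} (hF : Continuous F) {a b x₁ x₂ α₁ β₁ α₂ β₂ α₃ β₃ : ℝ} (h1 : a ≤ x₁)
    (h2 : x₁ ≤ x₂) (h3 : x₂ ≤ b) (f1 : ∀ x ∈ Icc a x₁, F x ≤ α₁ + β₁ * x)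
    (f2 : ∀ x ∈ Icc x₁ x₂, F x ≤ α₂ + β₂ * x) (f3 : ∀ x ∈ Icc x₂ b, F x ≤ α₃ + β₃ * x) :
    ∫ x in a..b, F x ≤ (α₁ * (x₁ - a) + β₁ * (x₁ ^ 2 - a ^ 2) / 2) +
      (α₂ * (x₂ - x₁) + β₂ * (x₂ ^ 2 - x₁ ^ 2) / 2) + (α₃ * (b - x₂) + β₃ * (b ^ 2 - x₂ ^ 2) / 2) := by
  have hI : ∀ u v : ℝ, IntervalIntegrable F volume u v := fun u v => hF.intervalIntegrable u v
  have hL : ∀ α β u v : ℝ, IntervalIntegrable (fun x => α + β * x) volume u v :=
    fun α β u v => (by fun_prop : Continuous fun x : ℝ => α + β * x).intervalIntegrable u v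
  rw [← intervalIntegral.integral_add_adjacent_intervals (hI a x₂) (hI x₂ b),
    ← intervalIntegral.integral_add_adjacent_intervals (hI a x₁) (hI x₁ x₂)]
  rw [← int_lin, ← int_lin, ← int_lin]
  exact add_le_add (add_le_add
    (intervalIntegral.integral_mono_on h1 (hI _ _) (hL _ _ _ _) f1)
    (intervalIntegral.integral_mono_on h2 (hI _ _) (hL _ _ _ _) f2))
    (intervalIntegral.integral_mono_on h3 (hI _ _) (hL _ _ _ _) f3)

lemma clp_le_top {c x : ℝ} (hx : |x| ≤ c / 2) (y : ℝ) : clp c x y ≤ c / 2 - |x| := by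
  unfold clp
  exact max_le (by linarith) (min_le_left _ _)

lemma clp_le_self {c x y : ℝ} (h : -(c / 2 - |x|) ≤ y) : clp c x y ≤ y := by
  unfold clp
  exact max_le h (min_le_right _ _)

lemma clp_le_bot {c x y : ℝ} (h : y ≤ -(c / 2 - |x|)) : clp c x y ≤ -(c / 2 - |x|) := by
  unfold clp
  exact max_le le_rfl ((min_le_right _ _).trans h)

/-- First case: both ends on parallel sides. -/
lemma Psi_le1 {c p m : ℝ} (hc : 0 < c) (hm : 0 ≤ m) (hp : 0 ≤ p) (hpm : p ≤ c / 2 * m)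
    (hm1 : m ≤ 1) : Psi c p m ≤ c * p / (1 + m) := by
  have hm' : 0 < 1 + m := by linarith
  have e1 : -(c / 2) ≤ -((c / 2 + p) / (1 + m)) := by
    rw [neg_le_neg_iff, div_le_iff₀ hm']
    linarith
  have e2 : -((c / 2 + p) / (1 + m)) ≤ (c / 2 - p) / (1 + m) := by
    rw [← neg_div, div_le_div_iff_of_pos_right hm']
    linarith
  have e3 : (c / 2 - p) / (1 + m) ≤ c / 2 := by
    rw [div_le_iff₀ hm']
    nlinarith
  have hpc : p ≤ c / 2 := by nlinarith
  have h := three (clp_cont c p m) e1 e2 e3 (α₁ := -(c / 2)) (β₁ := -1) (α₂ := p) (β₂ := m)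
    (α₃ := c / 2) (β₃ := -1) (by
      rintro x ⟨h1, h2⟩
      have h3 : x ≤ 0 := by
        have : 0 ≤ (c / 2 + p) / (1 + m) := by positivity
        linarith
      have h4 : x * (1 + m) ≤ -(c / 2 + p) := by
        rw [← neg_div, le_div_iff₀ hm'] at h2
        exact h2
      have h5 := clp_le_bot (c := c) (x := x) (y := p + m * x) (by
        rw [abs_of_nonpos h3]
        linarith)
      rw [abs_of_nonpos h3] at h5
      linarith) (by
      rintro x ⟨h1, h2⟩
      refine clp_le_self ?_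
      have h4 : -(c / 2 + p) ≤ x * (1 + m) := by
        rw [← neg_div, div_le_iff₀ hm'] at h1
        exact h1
      have h5 : x * (1 + m) ≤ c / 2 - p := by
        rwa [le_div_iff₀ hm'] at h2
      rcases le_total 0 x with h3 | h3
      · rw [abs_of_nonneg h3]
        have h6 : m * x ≤ 1 * x := mul_le_mul_of_nonneg_right hm1 h3
        have h7 : 0 ≤ m * x := mul_nonneg hm h3
        nlinarith
      · rw [abs_of_nonpos h3]
        linarith) (by
      rintro x ⟨h1, h2⟩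
      have h3 : 0 ≤ x := by
        have : 0 ≤ (c / 2 - p) / (1 + m) := div_nonneg (by linarith) hm'.le
        linarith
      have h5 := clp_le_top (c := c) (x := x) (by rw [abs_of_nonneg h3]; exact h2) (p + m * x)
      rw [abs_of_nonneg h3] at h5
      linarith)
  unfold Psi
  refine h.trans (le_of_eq ?_)
  field_simp
  ring

/-- Second case: both ends on adjacent upper sides. -/
lemma Psi_le2 {c p m : ℝ} (hc : 0 < c) (hm : 0 ≤ m) (hm1 : m < 1) (hpm : c / 2 * m ≤ p)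
    (hpc : p ≤ c / 2) : Psi c p m ≤ c ^ 2 / 4 - (c / 2 - p) ^ 2 / (1 - m ^ 2) := by
  have hm' : 0 < 1 + m := by linarith
  have hm'' : 0 < 1 - m := by linarith
  have hp : 0 ≤ p := le_trans (by positivity) hpm
  have e1 : -(c / 2) ≤ -((c / 2 - p) / (1 - m)) := by
    rw [neg_le_neg_iff, div_le_iff₀ hm'']
    linarith
  have q1 : 0 ≤ (c / 2 - p) / (1 - m) := div_nonneg (by linarith) hm''.le
  have q2 : 0 ≤ (c / 2 - p) / (1 + m) := div_nonneg (by linarith) hm'.le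
  have e2 : -((c / 2 - p) / (1 - m)) ≤ (c / 2 - p) / (1 + m) := by linarith
  have e3 : (c / 2 - p) / (1 + m) ≤ c / 2 := by
    rw [div_le_iff₀ hm']
    nlinarith
  have h := three (clp_cont c p m) e1 e2 e3 (α₁ := c / 2) (β₁ := 1) (α₂ := p) (β₂ := m)
    (α₃ := c / 2) (β₃ := -1) (by
      rintro x ⟨h1, h2⟩
      have h3 : x ≤ 0 := by linarith
      have h5 := clp_le_top (c := c) (x := x) (by rw [abs_of_nonpos h3]; linarith) (p + m * x)
      rw [abs_of_nonpos h3] at h5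
      linarith) (by
      rintro x ⟨h1, h2⟩
      refine clp_le_self ?_
      have h3 : |x| ≤ c / 2 := abs_le.2 ⟨by linarith, by linarith⟩
      have h4 : -(m * (c / 2)) ≤ m * x := by
        have := mul_le_mul_of_nonneg_left (abs_le.1 h3).1 hm
        linarith
      linarith) (by
      rintro x ⟨h1, h2⟩
      have h3 : 0 ≤ x := by linarith
      have h5 := clp_le_top (c := c) (x := x) (by rw [abs_of_nonneg h3]; exact h2) (p + m * x)
      rw [abs_of_nonneg h3] at h5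
      linarith)
  unfold Psi
  refine h.trans (le_of_eq ?_)
  have e4 : (1 : ℝ) - m ^ 2 = (1 - m) * (1 + m) := by ring
  rw [e4]
  field_simp
  ring

/-- The upper bound for `0 ≤ V₁`. -/
lemma top {c z₀ z₁ V₀ V₁ : ℝ} (hc1 : 1 < c) (hc2 : c ≤ 11 / 10) (hV : V₀ ^ 2 + V₁ ^ 2 = 1)
    (hV0 : 0 < V₀) (hV1 : 0 ≤ V₁) (hV01 : V₁ ≤ V₀)
    (h : ∀ α : ℝ, |α| ≤ 1 / 2 → |z₀ + α * V₀| + |z₁ + α * V₁| ≤ c / 2) :
    Psi c (z₁ - V₁ / V₀ * z₀) (V₁ / V₀) ≤ Wd c / 2 := by
  have hc : 0 < c := by linarith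
  set m : ℝ := V₁ / V₀ with hm
  set p : ℝ := z₁ - m * z₀ with hp
  have hmV : m * V₀ = V₁ := by
    rw [hm]
    field_simp
  have hm0 : 0 ≤ m := by positivity
  -- the ends
  have hR := h (1 / 2) (by norm_num)
  have hL := h (-(1 / 2)) (by norm_num)
  have r1 : (1 + m) * (z₀ + 1 / 2 * V₀) + p ≤ c / 2 := by
    have h1 := le_abs_self (z₀ + 1 / 2 * V₀)
    have h2 := le_abs_self (z₁ + 1 / 2 * V₁)
    have e : (1 + m) * (z₀ + 1 / 2 * V₀) + p = (z₀ + 1 / 2 * V₀) + (z₁ + 1 / 2 * V₁) := by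
      rw [hp]
      linear_combination (1 / 2) * hmV
    linarith
  have l1 : -(c / 2) ≤ (1 + m) * (z₀ - 1 / 2 * V₀) + p := by
    have h1 := neg_abs_le (z₀ + -(1 / 2) * V₀)
    have h2 := neg_abs_le (z₁ + -(1 / 2) * V₁)
    have e : (1 + m) * (z₀ - 1 / 2 * V₀) + p = (z₀ + -(1 / 2) * V₀) + (z₁ + -(1 / 2) * V₁) := by
      rw [hp]
      linear_combination (-(1 / 2)) * hmV
    linarith
  have l2 : -(1 - m) * (z₀ - 1 / 2 * V₀) + p ≤ c / 2 := by
    have h1 := neg_abs_le (z₀ + -(1 / 2) * V₀)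
    have h2 := le_abs_self (z₁ + -(1 / 2) * V₁)
    have e : -(1 - m) * (z₀ - 1 / 2 * V₀) + p =
        -(z₀ + -(1 / 2) * V₀) + (z₁ + -(1 / 2) * V₁) := by
      rw [hp]
      linear_combination (-(1 / 2)) * hmV
    linarith
  have hA : V₀ + V₁ ≤ c := by
    have : (1 + m) * V₀ ≤ c := by linarith
    rw [add_mul, one_mul, hmV] at this
    exact this
  have hσ : 2 * V₀ * V₁ ≤ c ^ 2 - 1 := by
    have h1 : (V₀ + V₁) ^ 2 ≤ c ^ 2 := pow_le_pow_left₀ (by positivity) hA 2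
    nlinarith
  have hm1 : m < 1 := by
    by_contra hcon
    push Not at hcon
    have h1 : V₀ ≤ V₁ := by
      rw [← hmV]
      nlinarith
    have h2 : V₀ = V₁ := le_antisymm h1 hV01
    rw [← h2] at hσ hV
    nlinarith
  have hm'' : 0 < 1 - m := by linarith
  have hm' : 0 < 1 + m := by linarith
  have hB : V₀ * (1 - m ^ 2) / 2 ≤ c / 2 - p := by
    have h1 : (1 - m) * ((1 + m) * (z₀ + 1 / 2 * V₀)) ≤ (1 - m) * (c / 2 - p) :=
      mul_le_mul_of_nonneg_left (by linarith) hm''.le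
    have h2 : (1 + m) * (-(1 - m) * (z₀ - 1 / 2 * V₀)) ≤ (1 + m) * (c / 2 - p) :=
      mul_le_mul_of_nonneg_left (by linarith) hm'.le
    nlinarith
  have hpc : p ≤ c / 2 := by
    have : 0 ≤ V₀ * (1 - m ^ 2) / 2 := by
      have : 0 ≤ 1 - m ^ 2 := by nlinarith
      positivity
    linarith
  have hrad : 0 ≤ 2 - c ^ 2 := by nlinarith
  have hsq : √(2 - c ^ 2) ^ 2 = 2 - c ^ 2 := Real.sq_sqrt hrad
  have hs0 : 0 ≤ √(2 - c ^ 2) := Real.sqrt_nonneg _
  -- `√(2-c²) (V₀+V₁) ≤ c (V₀-V₁)`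
  have hkey1 : √(2 - c ^ 2) * (V₀ + V₁) ≤ c * (V₀ - V₁) := by
    refine abs_le_of_sq_le_sq' ?_ (mul_nonneg hc.le (by linarith)) |>.2
    have e1 : (√(2 - c ^ 2) * (V₀ + V₁)) ^ 2 = (2 - c ^ 2) * (1 + 2 * V₀ * V₁) := by
      rw [mul_pow, hsq]
      linear_combination (2 - c ^ 2) * hV
    have e2 : (c * (V₀ - V₁)) ^ 2 = c ^ 2 * (1 - 2 * V₀ * V₁) := by
      linear_combination c ^ 2 * hV
    rw [e1, e2]
    nlinarith
  rcases le_total p 0 with hp0 | hp0
  · have h1 := Psi_mono hc.le hp0 m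
    rw [Psi_zero hc.le] at h1
    have h2 : 0 ≤ Wd c := by
      rw [Wd]
      have h3 : √(2 - c ^ 2) ≤ 1 := Real.sqrt_le_one.2 (by nlinarith)
      nlinarith
    linarith
  · rcases le_total p (c / 2 * m) with hpm | hpm
    · refine (Psi_le1 hc hm0 hp0 hpm hm1.le).trans ?_
      have h1 : c * p / (1 + m) ≤ c * (c / 2 * m) / (1 + m) :=
        div_le_div_of_nonneg_right (mul_le_mul_of_nonneg_left hpm hc.le) hm'.le
      refine h1.trans ?_
      rw [div_le_iff₀ hm']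
      have hV01' : 0 < V₀ := hV0
      refine le_of_mul_le_mul_right ?_ hV0
      have e1 : c * (c / 2 * m) * V₀ = c ^ 2 / 2 * V₁ := by
        rw [← hmV]
        ring
      have e2 : Wd c / 2 * (1 + m) * V₀ = Wd c / 2 * (V₀ + V₁) := by
        rw [← hmV]
        ring
      rw [e1, e2, Wd]
      nlinarith [mul_le_mul_of_nonneg_left hkey1 hc.le]
    · refine (Psi_le2 hc hm0 hm1 hpm hpc).trans ?_
      have hmm : 0 < 1 - m ^ 2 := by nlinarith
      have h1 : (V₀ ^ 2 - V₁ ^ 2) / 4 ≤ (c / 2 - p) ^ 2 / (1 - m ^ 2) := by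
        rw [le_div_iff₀ hmm]
        have h2 : (V₀ * (1 - m ^ 2) / 2) ^ 2 ≤ (c / 2 - p) ^ 2 :=
          pow_le_pow_left₀ (by positivity) hB 2
        refine le_trans (le_of_eq ?_) h2
        rw [← hmV]
        ring
      have h3 : c * √(2 - c ^ 2) ≤ V₀ ^ 2 - V₁ ^ 2 := by
        have hnn : 0 ≤ V₀ ^ 2 - V₁ ^ 2 := by nlinarith
        refine abs_le_of_sq_le_sq' ?_ hnn |>.2
        rw [mul_pow, hsq]
        have e1 : (V₀ ^ 2 - V₁ ^ 2) ^ 2 = 1 - (2 * V₀ * V₁) ^ 2 := by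
          linear_combination (V₀ ^ 2 + V₁ ^ 2 + 1) * hV
        rw [e1]
        have h4 : (2 * V₀ * V₁) ^ 2 ≤ (c ^ 2 - 1) ^ 2 :=
          pow_le_pow_left₀ (by positivity) hσ 2
        nlinarith
      rw [Wd]
      linarith

/-- The upper bound for both signs of `V₁`. -/
lemma top' {c z₀ z₁ V₀ V₁ : ℝ} (hc1 : 1 < c) (hc2 : c ≤ 11 / 10) (hV : V₀ ^ 2 + V₁ ^ 2 = 1)
    (hV0 : 0 < V₀) (hV01 : |V₁| ≤ V₀)
    (h : ∀ α : ℝ, |α| ≤ 1 / 2 → |z₀ + α * V₀| + |z₁ + α * V₁| ≤ c / 2) :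
    Psi c (z₁ - V₁ / V₀ * z₀) (V₁ / V₀) ≤ Wd c / 2 := by
  rcases le_total 0 V₁ with h1 | h1
  · exact top hc1 hc2 hV hV0 h1 (by rwa [abs_of_nonneg h1] at hV01) h
  · have h2 := top (z₀ := -z₀) (z₁ := z₁) (V₁ := -V₁) hc1 hc2 (by rw [neg_sq]; exact hV) hV0
      (by linarith) (by rwa [abs_of_nonpos h1] at hV01) (by
        intro α hα
        have h3 := h (-α) (by rwa [abs_neg])
        have e1 : -z₀ + α * V₀ = -(z₀ + -α * V₀) := by ring
        have e2 : z₁ + α * -V₁ = z₁ + -α * V₁ := by ring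
        rw [e1, e2, abs_neg]
        exact h3)
    have e : z₁ - -V₁ / V₀ * -z₀ = z₁ - V₁ / V₀ * z₀ := by ring
    rw [e, neg_div, Psi_refl] at h2
    exact h2

end AuxPsi

open AuxPsi in
/-- (PsiTop) -/
theorem pr_PsiTop : S_PsiTop := by
  intro c z₀ z₁ V₀ V₁ hc1 hc2 hV hV01 h
  have hV0 : 0 < V₀ := by
    rcases (le_trans (abs_nonneg V₁) hV01).eq_or_lt with h0 | h0
    · exfalso
      rw [← h0] at hV01 hV
      have h1 : V₁ = 0 := abs_nonpos_iff.1 hV01
      rw [h1] at hV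
      norm_num at hV
    · exact h0
  have h1 := top' hc1 hc2 hV hV0 hV01 h
  have h2 := top' (z₀ := -z₀) (z₁ := -z₁) hc1 hc2 hV hV0 hV01 (by
    intro α hα
    have h3 := h (-α) (by rwa [abs_neg])
    have e1 : -z₀ + α * V₀ = -(z₀ + -α * V₀) := by ring
    have e2 : -z₁ + α * V₁ = -(z₁ + -α * V₁) := by ring
    rw [e1, e2, abs_neg, abs_neg]
    exact h3)
  have e : -z₁ - V₁ / V₀ * -z₀ = -(z₁ - V₁ / V₀ * z₀) := by ring
  have h3 := Psi_neg (by linarith : (0 : ℝ) ≤ c) (z₁ - V₁ / V₀ * z₀) (V₁ / V₀)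
  rw [Psi_refl] at h3
  rw [e, h3] at h2
  exact abs_le.2 ⟨by linarith, h1⟩

end Pool.Agent.Potatoes.TT
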