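import Pool.Agent.Work.MP_72041b_co.TT.Stmts

/-!
# MP_72041b_co, block TT, item Slot: a thin body lies in a sheared box
-/

set_option autoImplicit false

namespace Pool.Agent.Potatoes.TT

open MeasureTheory Set Metric Filter Topology
open scoped RealInnerProductSpace

namespace AuxSlot

/-- `log |z| - κ arg z`. -/
noncomputable def FF (κ : ℝ) (z : ℂ) : ℝ := ((1 + κ * Complex.I) * Complex.log z).re

lemma FF_eq (κ : ℝ) (z : ℂ) : FF κ z = Real.log ‖z‖ - κ * z.arg := by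
  simp [FF, Complex.log_re, Complex.log_im]

lemma deriv_nonpos {κ : ℝ} {z v : ℂ} (hz : z ∈ Complex.slitPlane)
    (h : ∀ᶠ s : ℝ in 𝓝[>] 0, FF κ (z + s * v) ≤ FF κ z) :
    ((1 + κ * Complex.I) * (v / z)).re ≤ 0 := by
  have h1 : HasDerivAt (fun s : ℝ => z + s * v) v 0 := by
    have := ((Complex.ofRealCLM.hasDerivAt (x := (0 : ℝ))).mul_const v).const_add z
    simpa using this
  have hz0 : z + ((0 : ℝ) : ℂ) * v ∈ Complex.slitPlane := by simpa using hz
  have h2 := h1.clog_real hz0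
  have h3 := h2.const_mul (1 + κ * Complex.I)
  have h4 : HasDerivAt (fun s : ℝ => FF κ (z + s * v))
      (((1 + κ * Complex.I) * (v / (z + ((0 : ℝ) : ℂ) * v))).re) 0 :=
    Complex.reCLM.hasFDerivAt.comp_hasDerivAt 0 h3
  have h5 := (hasDerivAt_iff_tendsto_slope.1 h4).mono_left
    (nhdsWithin_mono (0 : ℝ) (fun x (hx : x ∈ Ioi (0 : ℝ)) => ne_of_gt hx))
  have h6 : ∀ᶠ s in 𝓝[>] (0 : ℝ), slope (fun s : ℝ => FF κ (z + s * v)) 0 s ≤ 0 := by
    filter_upwards [h, self_mem_nhdsWithin] with s hs hs0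
    have hs0' : 0 < s := hs0
    rw [slope_def_field]
    simp only [Complex.ofReal_zero, zero_mul, add_zero, sub_zero]
    exact div_nonpos_of_nonpos_of_nonneg (by linarith) hs0'.le
  have h7 := le_of_tendsto h5 h6
  simpa using h7

/-- The complex number `(⟪u 0, x⟫, ⟪u 1, x⟫)`. -/
noncomputable def T (u : OrthonormalBasis (Fin 2) ℝ (E 2)) (x : E 2) : ℂ :=
  ⟨⟪u 0, x⟫, ⟪u 1, x⟫⟩

lemma T_norm (u : OrthonormalBasis (Fin 2) ℝ (E 2)) (x : E 2) : ‖T u x‖ = ‖x‖ := by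
  have h1 := u.sum_sq_norm_inner_right x
  rw [Fin.sum_univ_two, Real.norm_eq_abs, Real.norm_eq_abs, sq_abs, sq_abs] at h1
  have h2 : ‖T u x‖ ^ 2 = ‖x‖ ^ 2 := by
    rw [← Complex.normSq_eq_norm_sq, Complex.normSq_apply, ← h1]
    simp only [T]
    ring
  exact (pow_left_inj₀ (norm_nonneg _) (norm_nonneg _) two_ne_zero).1 h2

lemma T_cont (u : OrthonormalBasis (Fin 2) ℝ (E 2)) : Continuous (T u) := by
  have h0 : Continuous fun x : E 2 => (⟪u 0, x⟫ : ℝ) := by fun_prop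
  have h1 : Continuous fun x : E 2 => (⟪u 1, x⟫ : ℝ) := by fun_prop
  have h2 : T u = fun x => ((⟪u 0, x⟫ : ℝ) : ℂ) + ((⟪u 1, x⟫ : ℝ) : ℂ) * Complex.I := by
    funext x
    apply Complex.ext
    · simp [T]
    · simp [T]
  rw [h2]
  exact (Complex.continuous_ofReal.comp h0).add
    ((Complex.continuous_ofReal.comp h1).mul continuous_const)

lemma T_add (u : OrthonormalBasis (Fin 2) ℝ (E 2)) (x y : E 2) : T u (x + y) = T u x + T u y := by
  apply Complex.ext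
  · simp [T, inner_add_right]
  · simp [T, inner_add_right]

lemma T_smul (u : OrthonormalBasis (Fin 2) ℝ (E 2)) (s : ℝ) (x : E 2) :
    T u (s • x) = s * T u x := by
  apply Complex.ext
  · simp [T, inner_smul_right]
  · simp [T, inner_smul_right]

/-- The rotated basis. -/
lemma exists_rot (u : OrthonormalBasis (Fin 2) ℝ (E 2)) {a b l : ℝ} (hl : 0 < l)
    (hab : a ^ 2 + b ^ 2 = l ^ 2) : ∃ v : OrthonormalBasis (Fin 2) ℝ (E 2),
      (∀ x, ⟪v 0, x⟫ = (a * ⟪u 0, x⟫ + b * ⟪u 1, x⟫) / l) ∧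
      (∀ x, ⟪v 1, x⟫ = (-b * ⟪u 0, x⟫ + a * ⟪u 1, x⟫) / l) ∧
      l • v 0 = a • u 0 + b • u 1 := by
  set w : Fin 2 → E 2 := ![(a / l) • u 0 + (b / l) • u 1, (-b / l) • u 0 + (a / l) • u 1] with hw
  have h00 : (⟪u 0, u 0⟫ : ℝ) = 1 := by
    rw [real_inner_self_eq_norm_sq, u.orthonormal.1 0, one_pow]
  have h11 : (⟪u 1, u 1⟫ : ℝ) = 1 := by
    rw [real_inner_self_eq_norm_sq, u.orthonormal.1 1, one_pow]
  have h01 : (⟪u 0, u 1⟫ : ℝ) = 0 := u.orthonormal.2 (by decide)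
  have h10 : (⟪u 1, u 0⟫ : ℝ) = 0 := u.orthonormal.2 (by decide)
  have hn : (a / l) ^ 2 + (b / l) ^ 2 = 1 := by
    rw [div_pow, div_pow, ← add_div, hab, div_self (by positivity)]
  have i00 : (⟪w 0, w 0⟫ : ℝ) = 1 := by
    simp only [hw, Matrix.cons_val_zero, inner_add_left, inner_add_right, real_inner_smul_left,
      inner_smul_right, h00, h11, h01, h10]
    linear_combination hn
  have i11 : (⟪w 1, w 1⟫ : ℝ) = 1 := by
    simp only [hw, Matrix.cons_val_one, Matrix.cons_val_fin_one, inner_add_left, inner_add_right,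
      real_inner_smul_left, inner_smul_right, h00, h11, h01, h10]
    linear_combination hn
  have i01 : (⟪w 0, w 1⟫ : ℝ) = 0 := by
    simp only [hw, Matrix.cons_val_zero, Matrix.cons_val_one, Matrix.cons_val_fin_one,
      inner_add_left, inner_add_right, real_inner_smul_left, inner_smul_right, h00, h11, h01, h10]
    ring
  have hon : Orthonormal ℝ w := by
    constructor
    · intro i
      have h1 : (⟪w i, w i⟫ : ℝ) = 1 := by
        fin_cases i
        · exact i00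
        · exact i11
      rw [real_inner_self_eq_norm_sq] at h1
      have h2 : 0 ≤ ‖w i‖ := norm_nonneg _
      nlinarith
    · intro i j hij
      have h1 : (⟪w i, w j⟫ : ℝ) = 0 := by
        fin_cases i <;> fin_cases j
        · exact absurd rfl hij
        · exact i01
        · change (⟪w 1, w 0⟫ : ℝ) = 0
          rw [real_inner_comm]
          exact i01
        · exact absurd rfl hij
      exact h1
  have hspan : ⊤ ≤ Submodule.span ℝ (range w) :=
    (hon.linearIndependent.span_eq_top_of_card_eq_finrank' (by simp)).ge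
  refine ⟨OrthonormalBasis.mk hon hspan, fun x => ?_, fun x => ?_, ?_⟩
  · rw [OrthonormalBasis.coe_mk]
    simp only [hw, Matrix.cons_val_zero, inner_add_left, real_inner_smul_left]
    ring
  · rw [OrthonormalBasis.coe_mk]
    simp only [hw, Matrix.cons_val_one, Matrix.cons_val_fin_one, inner_add_left,
      real_inner_smul_left]
    ring
  · rw [OrthonormalBasis.coe_mk]
    simp only [hw, Matrix.cons_val_zero, smul_add, smul_smul]
    congr 2 <;> field_simp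

/-- The argument of a nearly real number. -/
lemma abs_arg_le {z : ℂ} (hz : 0 < z.re) {ε : ℝ} (h : |z.im| ≤ ε * z.re) : |z.arg| ≤ 2 * ε := by
  have hn : z.re ≤ ‖z‖ := Complex.re_le_norm z
  have hz0 : z ≠ 0 := fun h0 => by simp [h0] at hz
  have hzn : 0 < ‖z‖ := norm_pos_iff.2 hz0
  have h1 : |z.arg| ≤ Real.pi / 2 := (Complex.abs_arg_lt_pi_div_two_iff.2 (Or.inl hz)).le
  have h2 := Real.mul_abs_le_abs_sin h1
  rw [Complex.sin_arg, abs_div, abs_of_pos hzn] at h2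
  have h3 : |z.im| / ‖z‖ ≤ ε := by
    have hε : 0 ≤ ε := by
      by_contra hcon
      push Not at hcon
      have := abs_nonneg z.im
      nlinarith
    rw [div_le_iff₀ hzn]
    exact h.trans (mul_le_mul_of_nonneg_left hn hε)
  have hpi := Real.pi_pos
  have hpi4 := Real.pi_lt_four
  have h4 : |z.arg| ≤ Real.pi / 2 * ε := by
    have h5 : 2 / Real.pi * |z.arg| ≤ ε := h2.trans h3
    have h6 : |z.arg| = Real.pi / 2 * (2 / Real.pi * |z.arg|) := by
      field_simp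
    rw [h6]
    exact mul_le_mul_of_nonneg_left h5 (by positivity)
  have hε : 0 ≤ ε := by
    have h7 : 0 ≤ |z.im| / ‖z‖ := by positivity
    linarith
  nlinarith

lemma re_eq (κ : ℝ) (w z : ℂ) : ((1 + κ * Complex.I) * (w / z)).re =
    ((z.re * w.re + z.im * w.im) - κ * (-z.im * w.re + z.re * w.im)) / Complex.normSq z := by
  rw [Complex.mul_re, Complex.div_re, Complex.div_im]
  simp
  ring

/-- Admissible small variations. -/
lemma small_re {z w : ℂ} {d : ℝ} (h : d / 2 < z.re) :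
    ∀ᶠ s : ℝ in 𝓝[>] 0, d / 2 ≤ (z + s * w).re ∧ 0 < s ∧ s ≤ 1 := by
  have hc : Continuous fun s : ℝ => (z + s * w).re :=
    Complex.continuous_re.comp (continuous_const.add
      (Complex.continuous_ofReal.mul continuous_const))
  have h1 : ∀ᶠ s : ℝ in 𝓝 0, d / 2 < (z + s * w).re := by
    have h2 : d / 2 < (z + ((0 : ℝ) : ℂ) * w).re := by simpa using h
    exact hc.continuousAt.eventually (lt_mem_nhds h2)
  have h3 : ∀ᶠ s : ℝ in 𝓝[>] 0, s ≤ 1 := by
    have : ∀ᶠ s : ℝ in 𝓝 0, s ≤ 1 := by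
      filter_upwards [Iio_mem_nhds (show (0 : ℝ) < 1 by norm_num)] with s hs
      exact le_of_lt hs
    exact nhdsWithin_le_nhds this
  filter_upwards [nhdsWithin_le_nhds h1, h3, self_mem_nhdsWithin] with s hs1 hs2 hs3
  exact ⟨hs1.le, hs3, hs2⟩

/-- The critical chord. -/
theorem chord {κ : ℝ} (hκ : 0 < κ) (hκ1 : κ ≤ 1) {K : Set (E 2)} (hK : IsBody K)
    (hv : volume.real K ≤ 1 / 100 * diam K ^ 2) :
    ∃ (v : OrthonormalBasis (Fin 2) ℝ (E 2)) (P Q : E 2) (l : ℝ), P ∈ K ∧ Q ∈ K ∧ 0 < l ∧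
      Q - P = l • v 0 ∧ diam K / 2 ≤ l ∧ l ≤ diam K ∧
      ∀ x ∈ K, 0 ≤ ⟪v 0, x - P⟫ - κ * ⟪v 1, x - P⟫ ∧
        ⟪v 0, x - P⟫ - κ * ⟪v 1, x - P⟫ ≤ l := by
  obtain ⟨z₀, hzK, ε, hε, hunit⟩ := Box2.exists_ball hK
  obtain ⟨P₀, hP₀, Q₀, hQ₀, hdiam, hdist⟩ := Box2.exists_diam hK.compact ⟨z₀, hzK⟩
  set d : ℝ := dist P₀ Q₀ with hd
  have hdpos : 0 < d := by
    have h1 := hdist _ (hunit (EuclideanSpace.single 0 1) (by simp)) z₀ hzK
    rw [dist_eq_norm, add_sub_cancel_left, norm_smul, Real.norm_eq_abs,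
      abs_of_pos (by linarith), PiLp.norm_single, norm_one, mul_one] at h1
    linarith
  obtain ⟨u, hu⟩ := Box2.exists_basis (d⁻¹ • (Q₀ - P₀)) (by
    rw [norm_smul, norm_inv, Real.norm_eq_abs, abs_of_pos hdpos, ← dist_eq_norm, dist_comm Q₀ P₀]
    exact inv_mul_cancel₀ hdpos.ne')
  have hQP₀ : Q₀ - P₀ = d • u 0 := by
    rw [hu, smul_smul, mul_inv_cancel₀ hdpos.ne', one_smul]
  rw [hdiam] at hv ⊢
  -- the height
  have hfc : Continuous fun x : E 2 => ⟪u 1, x⟫ := by fun_prop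
  obtain ⟨R, hRK, hR⟩ := hK.compact.exists_isMaxOn ⟨z₀, hzK⟩ hfc.continuousOn
  obtain ⟨R', hRK', hR'⟩ := hK.compact.exists_isMinOn ⟨z₀, hzK⟩ hfc.continuousOn
  have hRm : ∀ x ∈ K, ⟪u 1, x⟫ ≤ ⟪u 1, R⟫ := fun x hx => hR hx
  have hRm' : ∀ x ∈ K, ⟪u 1, R'⟫ ≤ ⟪u 1, x⟫ := fun x hx => hR' hx
  have hab := Box2.area_bound hK u hdpos hP₀ hQ₀ hRK hRK' hQP₀ (hRm P₀ hP₀) (hRm' P₀ hP₀)
  have hh : ⟪u 1, R⟫ - ⟪u 1, R'⟫ ≤ 1 / 50 * d := by
    have h1 : d * (⟪u 1, R⟫ - ⟪u 1, R'⟫) ≤ d * (1 / 50 * d) := by nlinarith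
    exact le_of_mul_le_mul_left h1 hdpos
  have him : ∀ x ∈ K, ∀ y ∈ K, |(T u (y - x)).im| ≤ 1 / 50 * d := by
    intro x hx y hy
    have e : (T u (y - x)).im = ⟪u 1, y⟫ - ⟪u 1, x⟫ := by
      simp only [T]
      rw [inner_sub_right]
    rw [e, abs_le]
    have h1 := hRm x hx
    have h2 := hRm' x hx
    have h3 := hRm y hy
    have h4 := hRm' y hy
    constructor <;> linarith
  -- the maximum
  set S : Set (E 2 × E 2) := (K ×ˢ K) ∩ {p | d / 2 ≤ (T u (p.2 - p.1)).re} with hS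
  have hcT : Continuous fun p : E 2 × E 2 => T u (p.2 - p.1) :=
    (T_cont u).comp (continuous_snd.sub continuous_fst)
  have hSc : IsCompact S := (hK.compact.prod hK.compact).inter_right
    (isClosed_le continuous_const (Complex.continuous_re.comp hcT))
  have hT0 : T u (Q₀ - P₀) = d := by
    rw [hQP₀, T_smul]
    have : T u (u 0) = 1 := by
      apply Complex.ext
      · simp only [T, Complex.one_re]
        rw [real_inner_self_eq_norm_sq, u.orthonormal.1 0, one_pow]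
      · simp only [T, Complex.one_im]
        exact u.orthonormal.2 (by decide)
    rw [this, mul_one]
  have hS0 : (P₀, Q₀) ∈ S := by
    refine ⟨mem_prod.2 ⟨hP₀, hQ₀⟩, ?_⟩
    change d / 2 ≤ (T u (Q₀ - P₀)).re
    rw [hT0, Complex.ofReal_re]
    linarith
  have hslit : ∀ p ∈ S, T u (p.2 - p.1) ∈ Complex.slitPlane := by
    intro p hp
    rw [Complex.mem_slitPlane_iff]
    left
    have : d / 2 ≤ (T u (p.2 - p.1)).re := hp.2
    linarith
  have hcF : ContinuousOn (fun p : E 2 × E 2 => FF κ (T u (p.2 - p.1))) S := by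
    intro p hp
    apply ContinuousAt.continuousWithinAt
    exact Complex.continuous_re.continuousAt.comp
      (continuousAt_const.mul (hcT.continuousAt.clog (hslit p hp)))
  obtain ⟨⟨P, Q⟩, hPQ, hmax⟩ := hSc.exists_isMaxOn ⟨_, hS0⟩ hcF
  have hPK : P ∈ K := (mem_prod.1 hPQ.1).1
  have hQK : Q ∈ K := (mem_prod.1 hPQ.1).2
  set z : ℂ := T u (Q - P) with hz
  have hmax' : ∀ P' Q' : E 2, P' ∈ K → Q' ∈ K → d / 2 ≤ (T u (Q' - P')).re →
      FF κ (T u (Q' - P')) ≤ FF κ z := fun P' Q' h1 h2 h3 =>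
    isMaxOn_iff.1 hmax (P', Q') ⟨mem_prod.2 ⟨h1, h2⟩, h3⟩
  have hzs : z ∈ Complex.slitPlane := hslit _ hPQ
  have hzre : d / 2 ≤ z.re := hPQ.2
  have hzre0 : 0 < z.re := by linarith
  have hz0 : z ≠ 0 := fun h => by
    rw [h] at hzre0
    simp at hzre0
  have hl : 0 < ‖z‖ := norm_pos_iff.2 hz0
  have hzim : |z.im| ≤ 1 / 50 * d := him P hPK Q hQK
  have harg : |z.arg| ≤ 2 * (1 / 25) := abs_arg_le hzre0 (by linarith)
  have hlog : Real.log d - 2 / 25 ≤ Real.log ‖z‖ := by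
    have h1 := hmax' P₀ Q₀ hP₀ hQ₀ hS0.2
    rw [hT0, FF_eq, FF_eq, Complex.norm_real, Real.norm_eq_abs, abs_of_pos hdpos,
      Complex.arg_ofReal_of_nonneg hdpos.le] at h1
    have h2 := abs_le.1 harg
    nlinarith
  have hlow : 23 / 25 * d ≤ ‖z‖ := by
    have h1 : Real.exp (Real.log d - 2 / 25) ≤ ‖z‖ := by
      rw [← Real.exp_log hl]
      exact Real.exp_le_exp.2 hlog
    rw [sub_eq_add_neg, Real.exp_add, Real.exp_log hdpos] at h1
    have h2 := Real.add_one_le_exp (-(2 / 25 : ℝ))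
    nlinarith
  have hnsq : z.re ^ 2 + z.im ^ 2 = ‖z‖ ^ 2 := by
    rw [← Complex.normSq_eq_norm_sq, Complex.normSq_apply]
    ring
  have hre : d / 2 < z.re := by
    by_contra hcon
    push Not at hcon
    have h1 : z.im ^ 2 ≤ (1 / 50 * d) ^ 2 := by
      rw [← sq_abs]
      exact pow_le_pow_left₀ (abs_nonneg _) hzim 2
    have h2 : (23 / 25 * d) ^ 2 ≤ ‖z‖ ^ 2 := pow_le_pow_left₀ (by positivity) hlow 2
    have h3 : z.re ^ 2 ≤ (d / 2) ^ 2 := pow_le_pow_left₀ hzre0.le hcon 2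
    nlinarith [sq_pos_of_pos hdpos]
  have hld : ‖z‖ ≤ d := by
    rw [hz, T_norm, ← dist_eq_norm]
    exact hdist Q hQK P hPK
  obtain ⟨v, hv0, hv1, hlv⟩ := exists_rot u hl hnsq
  have hQP : Q - P = ‖z‖ • v 0 := by
    rw [hlv]
    have h1 := u.sum_repr' (Q - P)
    rw [Fin.sum_univ_two] at h1
    exact h1.symm
  have hval : ∀ y : E 2, ((1 + κ * Complex.I) * (T u y / z)).re =
      (⟪v 0, y⟫ - κ * ⟪v 1, y⟫) / ‖z‖ := by
    intro y
    rw [re_eq, hv0, hv1, Complex.normSq_eq_norm_sq]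
    simp only [T]
    field_simp
  refine ⟨v, P, Q, ‖z‖, hPK, hQK, hl, hQP, by linarith, hld, fun x hx => ⟨?_, ?_⟩⟩
  · -- variation of `P`
    have h1 : ∀ᶠ s : ℝ in 𝓝[>] 0, FF κ (z + s * (-T u (x - P))) ≤ FF κ z := by
      filter_upwards [small_re (w := -T u (x - P)) hre] with s hs
      have e : T u (Q - (P + s • (x - P))) = z + s * (-T u (x - P)) := by
        have : Q - (P + s • (x - P)) = (Q - P) + (-s) • (x - P) := by
          rw [neg_smul]
          abel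
        rw [this, T_add, T_smul]
        push_cast
        ring
      have hm : P + s • (x - P) ∈ K := hK.convex.add_smul_sub_mem hPK hx ⟨hs.2.1.le, hs.2.2⟩
      have h2 := hmax' (P + s • (x - P)) Q hm hQK (by rw [e]; exact hs.1)
      rwa [e] at h2
    have h2 := deriv_nonpos hzs h1
    rw [neg_div, mul_neg, Complex.neg_re, hval] at h2
    have h3 : 0 ≤ (⟪v 0, x - P⟫ - κ * ⟪v 1, x - P⟫) / ‖z‖ := by linarith
    have h4 := mul_nonneg h3 hl.le
    rwa [div_mul_cancel₀ _ hl.ne'] at h4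
  · -- variation of `Q`
    have h1 : ∀ᶠ s : ℝ in 𝓝[>] 0, FF κ (z + s * T u (x - Q)) ≤ FF κ z := by
      filter_upwards [small_re (w := T u (x - Q)) hre] with s hs
      have e : T u (Q + s • (x - Q) - P) = z + s * T u (x - Q) := by
        have : Q + s • (x - Q) - P = (Q - P) + s • (x - Q) := by abel
        rw [this, T_add, T_smul]
      have hm : Q + s • (x - Q) ∈ K := hK.convex.add_smul_sub_mem hQK hx ⟨hs.2.1.le, hs.2.2⟩
      have h2 := hmax' P (Q + s • (x - Q)) hPK hm (by rw [e]; exact hs.1)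
      rwa [e] at h2
    have h2 := deriv_nonpos hzs h1
    rw [hval] at h2
    have h4 : ⟪v 0, x - Q⟫ - κ * ⟪v 1, x - Q⟫ ≤ 0 := by
      by_contra hcon
      push Not at hcon
      have := div_pos hcon hl
      linarith
    have h5 : ⟪v 0, x - Q⟫ = ⟪v 0, x - P⟫ - ‖z‖ := by
      have : x - Q = (x - P) - (Q - P) := by abel
      rw [this, inner_sub_right, hQP, inner_smul_right, real_inner_self_eq_norm_sq,
        v.orthonormal.1 0]
      ring
    have h6 : ⟪v 1, x - Q⟫ = (⟪v 1, x - P⟫ : ℝ) := by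
      have : x - Q = (x - P) - (Q - P) := by abel
      rw [this, inner_sub_right, hQP, inner_smul_right, v.orthonormal.2 (by decide)]
      ring
    rw [h5, h6] at h4
    linarith

end AuxSlot

open AuxSlot in
/-- (Slot) -/
theorem pr_Slot : S_Slot := by
  refine ⟨1 / 100, by norm_num, fun κ hκ hκ1 K hK hv => ?_⟩
  obtain ⟨v, P, Q, l, hPK, hQK, hl, hQP, hl1, hl2, hx⟩ := chord hκ hκ1 hK hv
  obtain ⟨z₀, hzK, ε, hε, hunit⟩ := Box2.exists_ball hK
  have hfc : Continuous fun x : E 2 => ⟪v 1, x⟫ := by fun_prop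
  obtain ⟨R, hRK, hR⟩ := hK.compact.exists_isMaxOn ⟨z₀, hzK⟩ hfc.continuousOn
  obtain ⟨R', hRK', hR'⟩ := hK.compact.exists_isMinOn ⟨z₀, hzK⟩ hfc.continuousOn
  have hRm : ∀ x ∈ K, ⟪v 1, x⟫ ≤ ⟪v 1, R⟫ := fun x hx => hR hx
  have hRm' : ∀ x ∈ K, ⟪v 1, R'⟫ ≤ ⟪v 1, x⟫ := fun x hx => hR' hx
  have hab := Box2.area_bound hK v hl hPK hQK hRK hRK' hQP (hRm P hPK) (hRm' P hPK)
  have hH : 0 < ⟪v 1, R⟫ - ⟪v 1, R'⟫ := by
    have hu1 : ‖v 1‖ = 1 := v.orthonormal.1 1
    have h1 := hRm _ (hunit (v 1) hu1)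
    have h2 := hRm' z₀ hzK
    rw [inner_add_right, inner_smul_right, real_inner_self_eq_norm_sq, hu1] at h1
    linarith
  set Y : ℝ := ⟪v 1, P⟫ - ⟪v 1, R'⟫ with hY
  set τ : E 2 := !₂[κ * Y, Y] with hτ
  refine ⟨(IsometryEquiv.subRight P).trans
    (v.repr.toIsometryEquiv.trans (IsometryEquiv.addRight τ)), l, ⟪v 1, R⟫ - ⟪v 1, R'⟫, hH,
    hl1, hl2, hab, fun x hxK => ?_⟩
  have e0 : ((IsometryEquiv.subRight P).trans
    (v.repr.toIsometryEquiv.trans (IsometryEquiv.addRight τ))) x 0 =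
      ⟪v 0, x - P⟫ + κ * Y := by
    change (v.repr (x - P) + τ) 0 = _
    rw [PiLp.add_apply, v.repr_apply_apply]
    simp [hτ]
  have e1 : ((IsometryEquiv.subRight P).trans
    (v.repr.toIsometryEquiv.trans (IsometryEquiv.addRight τ))) x 1 =
      ⟪v 1, x - P⟫ + Y := by
    change (v.repr (x - P) + τ) 1 = _
    rw [PiLp.add_apply, v.repr_apply_apply]
    simp [hτ]
  rw [e0, e1]
  have h1 := hx x hxK
  have h2 := hRm x hxK
  have h3 := hRm' x hxK
  have h4 : (⟪v 1, x - P⟫ : ℝ) = ⟪v 1, x⟫ - ⟪v 1, P⟫ := inner_sub_right _ _ _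
  refine ⟨by linarith [h1.1], by linarith [h1.2], ?_, ?_⟩
  · rw [h4, hY]
    linarith
  · rw [h4, hY]
    linarith

end Pool.Agent.Potatoes.TT
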