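import Pool.Agent.Work.MP_72041b_co.TT.Stmts

/-!
# MP_72041b_co, block TT, item Wd: elementary properties of the width of the band
-/

set_option autoImplicit false

namespace Pool.Agent.Potatoes.TT

namespace AuxWd

lemma mono {c c' : ℝ} (h1 : 1 ≤ c) (h2 : c ≤ c') : (c' - c) / 2 ≤ Wd c' - Wd c := by
  have hr : √(2 - c' ^ 2) ≤ √(2 - c ^ 2) := Real.sqrt_le_sqrt (by nlinarith)
  have hr1 : √(2 - c ^ 2) ≤ 1 := by
    rw [Real.sqrt_le_one]
    nlinarith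
  have h3 : c' * √(2 - c' ^ 2) ≤ c' * √(2 - c ^ 2) :=
    mul_le_mul_of_nonneg_left hr (by linarith)
  have h4 : (c' - c) * √(2 - c ^ 2) ≤ (c' - c) * 1 :=
    mul_le_mul_of_nonneg_left hr1 (by linarith)
  unfold Wd
  nlinarith

end AuxWd

/-- (Wd) -/
theorem pr_Wd : S_Wd := by
  refine ⟨1 / 100, 100, by norm_num, by norm_num, fun t ht0 ht => ?_,
    fun c c' h1 h2 _ => AuxWd.mono h1 h2⟩
  set s : ℝ := √(1 + 8 * t - 16 * t ^ 2) with hs
  have hs0 : 0 ≤ s := Real.sqrt_nonneg _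
  have hrad : 0 ≤ 1 + 8 * t - 16 * t ^ 2 := by nlinarith
  have hs2 : s ^ 2 = 1 + 8 * t - 16 * t ^ 2 := Real.sq_sqrt hrad
  have hs1 : 1 ≤ s := by
    rw [hs]
    exact Real.one_le_sqrt.2 (by nlinarith)
  have hsle : s ≤ 1 + 4 * t := by
    rw [hs]
    exact Real.sqrt_le_iff.2 ⟨by linarith, by nlinarith⟩
  set c : ℝ := cst t with hc
  have hc0 : 0 ≤ c := Real.sqrt_nonneg _
  have hc2 : c ^ 2 = (1 + 4 * t + s) / 2 := Real.sq_sqrt (by positivity)
  have hc1 : 1 ≤ c := by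
    rw [hc, cst]
    exact Real.one_le_sqrt.2 (by rw [← hs]; linarith)
  have hc11 : c ≤ 11 / 10 := by
    by_contra hcon
    push Not at hcon
    nlinarith
  refine ⟨hc1, hc11, ?_, ?_⟩
  · have hnn : 0 ≤ c ^ 2 - 4 * t := by
      rw [hc2]
      nlinarith
    have hkey : c ^ 2 * (2 - c ^ 2) = (c ^ 2 - 4 * t) ^ 2 := by
      rw [hc2]
      nlinarith
    have h1 : c * √(2 - c ^ 2) = c ^ 2 - 4 * t := by
      have h2 : c * √(2 - c ^ 2) = √(c ^ 2 * (2 - c ^ 2)) := by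
        rw [Real.sqrt_mul (sq_nonneg c), Real.sqrt_sq hc0]
      rw [h2, hkey, Real.sqrt_sq hnn]
    rw [Wd, h1]
    ring
  · have ht3 : 0 ≤ t ^ 3 := by positivity
    have ht4 : t ^ 4 ≤ t ^ 3 * (1 / 100) := by
      have : t ^ 4 = t ^ 3 * t := by ring
      rw [this]
      exact mul_le_mul_of_nonneg_left ht ht3
    have ht4' : 0 ≤ t ^ 4 := by positivity
    have hv : 0 ≤ 1 + 4 * t - 16 * t ^ 2 := by nlinarith
    have he : (s - (1 + 4 * t - 16 * t ^ 2)) * (s + (1 + 4 * t - 16 * t ^ 2)) =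
        128 * t ^ 3 - 256 * t ^ 4 := by
      have : (s - (1 + 4 * t - 16 * t ^ 2)) * (s + (1 + 4 * t - 16 * t ^ 2)) =
        s ^ 2 - (1 + 4 * t - 16 * t ^ 2) ^ 2 := by ring
      rw [this, hs2]
      ring
    have he0 : 0 ≤ s - (1 + 4 * t - 16 * t ^ 2) := by
      by_contra hcon
      push Not at hcon
      nlinarith
    have he1 : s - (1 + 4 * t - 16 * t ^ 2) ≤ 128 * t ^ 3 := by nlinarith
    have hu0 : 0 ≤ 1 + 2 * t - 6 * t ^ 2 := by nlinarith
    have hd : (c - (1 + 2 * t - 6 * t ^ 2)) * (c + (1 + 2 * t - 6 * t ^ 2)) =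
        (s - (1 + 4 * t - 16 * t ^ 2)) / 2 + 24 * t ^ 3 - 36 * t ^ 4 := by
      have : (c - (1 + 2 * t - 6 * t ^ 2)) * (c + (1 + 2 * t - 6 * t ^ 2)) =
        c ^ 2 - (1 + 2 * t - 6 * t ^ 2) ^ 2 := by ring
      rw [this, hc2]
      ring
    rw [abs_le]
    constructor
    · by_contra hcon
      push Not at hcon
      nlinarith
    · by_contra hcon
      push Not at hcon
      nlinarith

end Pool.Agent.Potatoes.TT
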