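import Pool.Agent.Work.MP_72041b_co.AllB

set_option autoImplicit false

/-!
# MP_72041b_co, block TT: three terms of the expansion of `f 2 a b` for small `b`

`f 2 a b = a + 2 b / a - 6 b² / a³ + O(b³ / a⁵)`. The square with diagonal `c = cos φ + sin φ`
contains, in the direction at angle `φ` to the diagonal, a band of chords of length one, of width
`Wd c = c sin φ`; thin bodies of total area `t` need the width `2 t` and not less.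
-/

namespace Pool.Agent.Potatoes.TT

open MeasureTheory Set Metric
open scoped RealInnerProductSpace Pointwise

/-- the closed form -/
noncomputable def cst (t : ℝ) : ℝ := √((1 + 4 * t + √(1 + 8 * t - 16 * t ^ 2)) / 2)

/-- the width of the band of chords of length one in the square with diagonal `c` -/
noncomputable def Wd (c : ℝ) : ℝ := (c ^ 2 - c * √(2 - c ^ 2)) / 2

/-- (Wd) Elementary properties. `Wd (cst t) = 2 t`: `c√(2-c²) = c² - 4t` squared is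
`2c⁴ - (2+8t)c² + 16t² = 0`, whose larger root is `c² = (1+4t+√(1+8t-16t²))/2`.
`√(1+8t-16t²) = 1+4t-16t²+O(t³)`, `cst t = 1+2t-6t²+O(t³)` (compare squares). The derivative of
`Wd` is `(2c - √(2-c²) + c²/√(2-c²))/2 ≥ 1` on `[1, 11/10]`; or directly: `c' ≥ c` implies
`√(2-c'²) ≤ √(2-c²)`, so `c'√(2-c'²) - c√(2-c²) ≤ (c'-c)√(2-c²) ≤ c'-c` and `c'²-c² ≥ 2(c'-c)`. -/
def S_Wd : Prop := ∃ β C : ℝ, 0 < β ∧ 0 < C ∧
  (∀ t : ℝ, 0 ≤ t → t ≤ β → 1 ≤ cst t ∧ cst t ≤ 11 / 10 ∧ Wd (cst t) = 2 * t ∧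
    |cst t - (1 + 2 * t - 6 * t ^ 2)| ≤ C * t ^ 3) ∧
  ∀ c c' : ℝ, 1 ≤ c → c ≤ c' → c' ≤ 11 / 10 → (c' - c) / 2 ≤ Wd c' - Wd c

/-! ## The upper bound -/

/-- (Slot) A thin body lies in a sheared box. PROOF. Work in `ℂ ≅ E 2` (any isometry). Let
`P₀, Q₀ ∈ K` with `|Q₀ - P₀| = d = diam K`, after an isometry `P₀ = 0`, `Q₀ = d` real. Every `x ∈ K`
has `|Im x| ≤ 2 vol K / d ≤ 2 η d` (triangle `P₀ Q₀ x`). On the compact set of the pairs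
`(P, Q) ∈ K × K` with `Re (Q - P) ≥ d / 2` maximise the continuous function
`F = Re ((1 + κ i) * Complex.log z) = log |z| - κ arg z`, `z = Q - P`. At the maximum `F ≥ log d` (the
pair `(P₀, Q₀)`), `|z| ≤ d`, `|arg z|` small (`|Im z| ≤ 4 η d`), so `|z| ≥ d exp (-κ |arg z|) ≥ d/2`
and `Re z > d / 2`. First order condition: for `x ∈ K` the pairs `(P, Q + s (x - Q))`, small `s > 0`, are
admissible, so the derivative at `s = 0` is `≤ 0`: `Re ((1 + κ i) (x - Q) / z) ≤ 0`; in the same way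
`Re ((1 + κ i) (x - P) / z) ≥ 0`. In the orthonormal frame with origin `P` and first axis `z / |z|`,
`x - P = (X, Y)`: `Re ((1 + κ i) (X + i Y)) = X - κ Y`, so `0 ≤ X - κ Y ≤ l`, `l = |z|`. Let
`Y ∈ [-Y₁, Y₂]` be the range of `Y` on `K`, `H = Y₁ + Y₂`: the two triangles over `P Q` with the extreme
points give `l H ≤ 2 vol K` (`area_bound`-like lemma in `Bd/B02.lean`, for the segment `P Q`
instead of the diameter). Shift the second coordinate by `Y₁` (and the first by `κ Y₁`). -/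
def S_Slot : Prop := ∃ η : ℝ, 0 < η ∧ ∀ κ : ℝ, 0 < κ → κ ≤ 1 → ∀ K : Set (E 2), IsBody K →
  volume.real K ≤ η * diam K ^ 2 → ∃ (g : E 2 ≃ᵢ E 2) (l H : ℝ), 0 < H ∧
    diam K / 2 ≤ l ∧ l ≤ diam K ∧ l * H ≤ 2 * volume.real K ∧
    ∀ x ∈ K, 0 ≤ g x 0 - κ * g x 1 ∧ g x 0 - κ * g x 1 ≤ l ∧ 0 ≤ g x 1 ∧ g x 1 ≤ H

/-- (ArrB) Stacking of the slots. `W = (1 - κ) / (1 + κ²)`, `r = W / (2 t) > 1`. Order `ι` by
decreasing `l` (ties by an injection to `ℕ`), `q i = ∑_{j before i} H j` (`ClaimStack`; the `H j` are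
summable since `l j ≥ l₀`), `Y i = W - r * (q i + H i)`. Then `Y i + H i ≤ W` and the intervals are
strictly separated since `r > 1`. Below: `q i + H i = ∑_{j up to i} H j ≤ 2 t / l i`, so it suffices that
`W ≤ l (W + (1 - l) κ / (1 + κ²))` for `l₀ ≤ l ≤ 1`, i.e. `(1 - l) ((1 + l) κ - 1) ≥ 0`. -/
def S_ArrB : Prop := ClaimStack → ∀ t κ l₀ : ℝ, 0 < t → 0 < κ → κ < 1 →
  2 * t < (1 - κ) / (1 + κ ^ 2) → 0 < l₀ → 1 ≤ (1 + l₀) * κ →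
  ∀ (ι : Type) [Countable ι] (l H : ι → ℝ), (∀ i, l₀ ≤ l i ∧ l i ≤ 1 ∧ 0 < H i) →
  (Summable fun i => l i * H i) → ∑' i, l i * H i ≤ 2 * t →
  ∃ Y : ι → ℝ, (∀ i, 0 ≤ κ * (1 - l i) + (1 + κ ^ 2) * Y i ∧
      (1 + κ ^ 2) * (Y i + H i) ≤ 1 - κ) ∧
    ∀ i j, i ≠ j → Y i + H i < Y j ∨ Y j + H j < Y i

/-- (ArrS) Small boxes in a square with side `3/20`, strictly separated: `ClaimBins 2` for the boxes
`2 w i l / ρ` (`ρ = 2 δ`), all bins are cells with side `ρ` of the square `[0, 3/20]²`;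
`δ` small and then `β` small (see `claimArrange2` in `Bd/B02.lean`, the part with the small
boxes). -/
def S_ArrS : Prop := ClaimBins → ∃ δ β : ℝ, 0 < δ ∧ δ ≤ 1 ∧ 0 < β ∧ ∀ t : ℝ, 0 < t → t ≤ β →
  ∀ (ι : Type) [Countable ι] (w : ι → Fin 2 → ℝ), (∀ i l, 0 < w i l ∧ w i l ≤ δ) →
  (Summable fun i => w i 0 * w i 1) → ∑' i, w i 0 * w i 1 ≤ 2 * t →
  ∃ P : ι → Fin 2 → ℝ, (∀ i l, 0 ≤ P i l ∧ P i l + w i l ≤ 3 / 20) ∧
    ∀ i j, i ≠ j → ∃ l, P i l + w i l < P j l ∨ P j l + w j l < P i l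

/-- (UpTT) The upper bound, from Slot, ArrB, ArrS, `ClaimStd`, `ClaimBox2`. `κ = √(2 - c²) / c`, so
`1 + κ² = 2 / c²`, `(1 - κ) / (1 + κ²) = Wd c`, and the square is (up to an isometry)
`{(X, Y) | 0 ≤ X - κ Y ≤ 1, 0 ≤ κ X + Y ≤ 1}`, of side `1 / √(1 + κ²) = c / √2`. `δ` from ArrS; bodies with
`diam < δ` (SMALL): `ClaimBox2` box `w 1 ≤ w 0 = diam`, area at most `2 vol`, put into the square
`[1/4, 2/5] × [1/10, 1/4]` in the `(X, Y)` coordinates. Bodies with `diam ≥ δ` (BIG): for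
`t ≤ η δ²` the slot lemma gives `g i, l i ∈ [δ/2, 1], H i`; `l₀ = δ / 2`, `(1 + l₀) κ ≥ 1` for `c`
near `1`; ArrB gives `Y i`; the body is put at `X = g x 0 + (1 - l i) + κ Y i`, `Y = g x 1 + Y i`: then
`X - κ Y ∈ [1 - l i, 1]` and `κ X + Y = κ (X - κ Y) + (1 + κ²) Y ∈ [0, 1]`, `Y ≤ Wd c < 1/10`. The frame
change is an isometry (`Up2.exists_iso` in `Bd/B02.lean`). -/
def S_UpTT : Prop := ∃ β : ℝ, 0 < β ∧ ∀ t c : ℝ, 0 < t → t ≤ β → 1 ≤ c → c ≤ 1 + β →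
  2 * t < Wd c → Works 2 1 t c

/-! ## The lower bound -/

/-- the nearest point of the vertical chord of the square `|x| + |y| ≤ c / 2` -/
noncomputable def clp (c x y : ℝ) : ℝ := max (-(c / 2 - |x|)) (min (c / 2 - |x|) y)

/-- the area of the square below the line `y = p + m x`, minus half of the area of the square -/
noncomputable def Psi (c p m : ℝ) : ℝ := ∫ x in (-(c / 2))..(c / 2), clp c x (p + m * x)

/-- (PsiTop) A line which contains a unit segment in the square. PROOF. `Psi c (-p) (-m) = -Psi c p m`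
and `Psi c p (-m) = Psi c p m` (substitution `x ↦ -x`), so it is enough to bound `Psi` from above
for `m ≥ 0`. Closed forms for `0 ≤ m < 1`: `Psi = c p / (1 + m)` if `|p| ≤ (c/2) m` (both ends of the
chord on parallel sides, `x_R = (c/2 - p)/(1 + m)`, `x_L = -(c/2 + p)/(1 + m)`), and
`Psi = c²/4 - (c/2 - p)²/(1 - m²)` if `(c/2) m ≤ p ≤ c/2` (`x_R = (c/2 - p)/(1 + m)`,
`x_L = -(c/2 - p)/(1 - m)`); `Psi ≤ 0` if `p ≤ 0`. The chord has length at least one. First case: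
`c √(1+m²)/(1+m) ≥ 1`; second case: `2 (c/2 - p)/√... `, precisely `2 (c/2 - p) √(1+m²)/(1-m²) ≥ 1`, and
`c/2 - p ≤ (c/2)(1 - m)` gives again `(1+m)² ≤ c² (1+m²)`. From this `Psi ≤ Wd c / 2`: first case
`c p/(1+m) ≤ c² m/(2(1+m))` and `√(2-c²)(1+m) ≤ c (1-m)` (square it: `2(1+m)² ≤ 2c²(1+m²)`); second
case `(c/2-p)²/(1-m²) ≥ (1-m²)/(4(1+m²)) ≥ c√(2-c²)/4`, with `σ = 2m/(1+m²) ≤ c²-1`:
`(1-m²)/(1+m²) = √(1-σ²) ≥ √(1-(c²-1)²) = c √(2-c²)`. -/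
def S_PsiTop : Prop := ∀ c z₀ z₁ V₀ V₁ : ℝ, 1 < c → c ≤ 11 / 10 → V₀ ^ 2 + V₁ ^ 2 = 1 →
  |V₁| ≤ V₀ → (∀ α : ℝ, |α| ≤ 1 / 2 → |z₀ + α * V₀| + |z₁ + α * V₁| ≤ c / 2) →
  |Psi c (z₁ - V₁ / V₀ * z₀) (V₁ / V₀)| ≤ Wd c / 2

/-- (Pair) Consecutive rhombi. PROOF. `c = 1 + ε`, lines `ℓ(x) = p + m x`, `ℓ'(x) = p' + m' x`,
`g = ℓ' - ℓ` affine with slope `B`; `J, J'` the projections to the `x`-axis of the unit axes,
`J = [z₀ - V₀/2, z₀ + V₀/2]`, `V₀ ≥ 1 - 3ε²`, `|V₁| ≤ 2ε`, `|z₀| ≤ ε` (`SectionAux.basic` in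
`Bd/B02.lean` has such estimates). (1) For `x ∈ J` the rhombus contains the points
`(x, y)`, `|y - ℓ(x)| ≤ τ(x) = (w/2)(1 - w)(1 - 2|x - z₀|/V₀)` (and `0`). (2) On `J ∩ J'` (an interval
containing `[-2/5, 2/5]`) the two rhombi are disjoint and `g(0) > 0`, so `g > 0` there (a zero of `g`
would be a common point) and `g ≥ τ + τ'` there. (3) `D = Psi' - Psi = ∫ (clp(ℓ') - clp(ℓ))`; `clp c x` is
monotone and `1`-Lipschitz; let `I, I'` be the `x`-projections of the chords of the two lines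
(intervals `J ⊆ I`), on `I ∩ I' = [X₁, X₂]` the integrand is `g`; elsewhere it is `≥ min 0 g`, and since
`g ≥ 0` on `J ∩ J'` we have `g ≥ -|B| · (distance to J ∩ J')`, so the rest is `≥ -C ε² |B|`.
With `L = X₂ - X₁`, `μ = (X₁+X₂)/2`: `D ≥ L g(μ) - Cε²|B|`, and `|B| ≤ C g(μ)` because `g ≥ 0` on
`[-2/5, 2/5]`. (4) If `g(μ) ≥ 2w` then `D ≥ w`. Otherwise `|B|, |p' - p| ≤ C w`, so the ends of `I` and
`I'` (`x_R = min ((c/2 - p)/(1+m)) ((c/2 + p)/(1-m))` etc., Lipschitz) differ by `≤ C w`, and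
`J ⊆ I` gives `|μ - z₀| ≤ (L - V₀)/2 + C w`, the same for `z₀'`. (5) `g(μ) ≥ τ(μ) + τ'(μ) ≥
w (1 - w)(1 - (L - 1) - Cε² - C w)` and `L (2 - L) = 1 - (L-1)²`, `|L - 1| ≤ 2ε`. So
`D ≥ w (1 - Cε² - C w)`. (Checked numerically: `D ≥ w (1 - 3w)` in all samples.) -/
def S_Pair : Prop := ∃ C ε₀ : ℝ, 0 < C ∧ 0 < ε₀ ∧ ∀ ε w z₀ z₁ V₀ V₁ z₀' z₁' V₀' V₁' : ℝ,
  0 < ε → ε ≤ ε₀ → 0 < w → w ≤ ε₀ →
  RhIn (1 + ε) w z₀ z₁ V₀ V₁ → RhIn (1 + ε) w z₀' z₁' V₀' V₁' → |V₁| ≤ V₀ → |V₁'| ≤ V₀' →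
  (∀ α β α' β' : ℝ, |α| + |β| / w ≤ 1 / 2 → |α'| + |β'| / w ≤ 1 / 2 →
    z₀ + α * V₀ - β * V₁ = z₀' + α' * V₀' - β' * V₁' →
    z₁ + α * V₁ + β * V₀ = z₁' + α' * V₁' + β' * V₀' → False) →
  z₁ - V₁ / V₀ * z₀ < z₁' - V₁' / V₀' * z₀' →
  w * (1 - C * ε ^ 2 - C * w) ≤ Psi (1 + ε) (z₁' - V₁' / V₀' * z₀') (V₁' / V₀') -
    Psi (1 + ε) (z₁ - V₁ / V₀ * z₀) (V₁ / V₀)

/-- (Core) `N` disjoint thin rhombi in the square (from Pair, PsiTop, `ClaimCross`). As in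
`Low2.core'` of `Bd/B02.lean` all axes are near the same diagonal; swap the coordinates if
necessary and replace `V` by `-V` if `V₀ < 0` (`RhIn` and the disjointness are invariant under
`(α, β) ↦ (-α, -β)`). The heights `p i = z₁ - V₁/V₀ z₀` at `x = 0` are different (two lines with the
same height at `0` would have a common point of the axes); sort the rhombi by `p i`
(`Finset.sort` / `Tuple.sort`), sum `S_Pair` over consecutive ones (telescoping), and `S_PsiTop` for the first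
and the last one. -/
def S_Core : Prop := ∃ C ε₀ : ℝ, 0 < C ∧ 0 < ε₀ ∧ ∀ (ε w : ℝ) (N : ℕ) (z0 z1 V0 V1 : Fin N → ℝ),
  0 < ε → ε ≤ ε₀ → 0 < w → w ≤ ε₀ → 0 < N →
  (∀ i, RhIn (1 + ε) w (z0 i) (z1 i) (V0 i) (V1 i)) →
  (∀ i j, i ≠ j → ∀ α β α' β' : ℝ, |α| + |β| / w ≤ 1 / 2 → |α'| + |β'| / w ≤ 1 / 2 →
    z0 i + α * V0 i - β * V1 i = z0 j + α' * V0 j - β' * V1 j →
    z1 i + α * V1 i + β * V0 i = z1 j + α' * V1 j + β' * V0 j → False) →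
  ((N : ℝ) - 1) * (w * (1 - C * ε ^ 2 - C * w)) ≤ Wd (1 + ε)

/-- (LowTT) The lower bound (from Core, Wd, `ClaimStd`, `ClaimLow`, `ClaimThin`, `ClaimThin2`): adapt
`claimLow2` of `Bd/B02.lean` (same construction: `w = 2 t / N`, `N` rhombi `thin 1 w`). If
`c ≥ cst t` nothing is to prove; otherwise `ε = c - 1 > 0` (`ClaimLow`), `ε ≤ 2t`, and `N → ∞` gives
`2 t (1 - C ε²) ≤ Wd c`; with `Wd (cst t) = 2 t` and `(cst t - c)/2 ≤ Wd (cst t) - Wd c ≤ 2 t C ε²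
≤ 8 C t³`. -/
def S_LowTT : Prop := ∃ β C : ℝ, 0 < β ∧ 0 < C ∧ ∀ t c : ℝ, 0 < t → t ≤ β → 0 < c →
  Works 2 1 t c → cst t - C * t ^ 3 ≤ c

/-! ## The theorem -/

/-- (MainTT) The theorem (from UpTT, LowTT, Wd, `ClaimScale`; adapt `mainB` of `Bd/B02.lean`). With
`t = b / a²`: `f 2 a b = a * f 2 1 t`, `a * cst t` is the closed form. Upper bound: every `c > cst t`
near `cst t` has `Wd c > 2 t`. -/
def S_MainTT : Prop := ∃ β C : ℝ, 0 < β ∧ 0 < C ∧ ∀ a b : ℝ, 0 < a → 0 < b → b ≤ β * a ^ 2 →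
  |f 2 a b - (a + 2 * b / a - 6 * b ^ 2 / a ^ 3)| ≤ C * b ^ 3 / a ^ 5 ∧
  f 2 a b ≤ √((a ^ 2 + 4 * b + √(a ^ 4 + 8 * a ^ 2 * b - 16 * b ^ 2)) / 2)

end Pool.Agent.Potatoes.TT
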